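import Pool.Agent.H93.BD.Defs

/-!
Targets of the board bdc_modules, part 2: multilinear steps, Bourgain-Guth, iteration, final form.
-/

open MeasureTheory
open scoped ENNReal NNReal

namespace Pool.Agent.H93.BD

/-! ### Grid combinatorics -/

def T_SUB : Prop := ∀ (m a b l : ℕ), l ≤ b → b ≤ a →
  (∀ (g : (Fin m → ℤ) → X m → ℂ) (τ : Fin m → ℤ) (x : X m),
    fF a l g τ x = ∑ α ∈ sub m b l τ, fF a b g α x) ∧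
  (∀ (M : Type) [AddCommMonoid M] (v : (Fin m → ℤ) → M) (τ : Fin m → ℤ),
    ∑ κ ∈ sub m a l τ, v κ = ∑ α ∈ sub m b l τ, ∑ κ ∈ sub m a b α, v κ) ∧
  (∀ (M : Type) [AddCommMonoid M] (v : (Fin m → ℤ) → M),
    ∑ κ ∈ Bx m a, v κ = ∑ α ∈ Bx m b, ∑ κ ∈ sub m a b α, v κ) ∧
  (∀ τ : Fin m → ℤ, (sub m b l τ).card ≤ 2 ^ (m * (b - l))) ∧
  (∀ τ : Fin m → ℤ, ∀ α ∈ sub m b l τ, α ∈ Bx m b ∧ τ ∈ Bx m l ∧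
    ‖pt b α - pt l τ‖ ≤ (m + 1) / 2 ^ l) ∧
  (∀ α ∈ Bx m b, ‖pt b α‖ ≤ m + 1)

/-- bounded overlap of the grid -/
def T_GRD : Prop := ∀ (m : ℕ) (r : ℝ), ∃ M : ℕ, ∀ (b : ℕ) (ξ : E m) (B : Finset (Fin m → ℤ)),
  (∀ κ ∈ B, ‖ξ - pt b κ‖ ≤ r / 2 ^ b) → B.card ≤ M

/-- the function of a coarse cell is a piece at the coarse scale -/
def T_CAP : Prop := ∀ (m : ℕ) (C0 : ℝ), 0 ≤ C0 → ∀ (a b : ℕ), b ≤ a →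
  ∀ g : (Fin m → ℤ) → X m → ℂ, Cls m C0 a g → ∀ α ∈ Bx m b,
    ∃ G : X m → ℂ, InCap (C0 + m + 1) (1 / 2 ^ b) (pt b α) G ∧ ∀ x, fF a b g α x = FI G x

/-- parabolic rescaling -/
def T_RES : Prop := ∀ (m : ℕ) (p C0 : ℝ), 0 < p → ∀ (a b : ℕ), b ≤ a → ∀ D : ℝ≥0∞,
  Dec m p C0 (a - b) D → ∀ g : (Fin m → ℤ) → X m → ℂ, Cls m C0 a g → ∀ α ∈ Bx m b,
    nrm p (fF a b g α) ≤ D * l2 (sub m a b α) (fun κ => nrm p (FI (g κ)))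

/-- trivial bound -/
def T_TRV : Prop := ∀ (m : ℕ) (p C0 : ℝ), 1 ≤ p → ∀ a : ℕ,
  Dec m p C0 a (ENNReal.ofReal (2 ^ ((m : ℝ) / 2 * a)))

/-! ### Multilinear steps -/

def T_HO1 : Prop := ∀ (m : ℕ) (p q : ℝ), 0 < p → 2 ≤ q → ∃ C : ℝ, ∀ R : ℝ, 0 < R →
  ∀ (I : Fin (m + 1) → Finset (Fin m → ℤ)) (f : (Fin m → ℤ) → X m → ℂ),
    (∀ i, ∀ α ∈ I i, Continuous (f α)) →
    AA m p 2 R I f ≤ ENNReal.ofReal C * AA m p q R I f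

def T_HO2 : Prop := ∀ (m : ℕ) (p q κ : ℝ), 2 ≤ q → q ≤ p → 0 ≤ κ → κ ≤ 1 →
  1 / q = (1 - κ) / 2 + κ / p → ∀ R : ℝ, 0 < R →
  ∀ (I : Fin (m + 1) → Finset (Fin m → ℤ)) (f : (Fin m → ℤ) → X m → ℂ),
    (∀ i, ∀ α ∈ I i, Continuous (f α)) →
    AA m p q R I f ≤ (AA m p 2 R I f) ^ (1 - κ) * (AA m p p R I f) ^ κ

def T_TRL : Prop := ∀ (m : ℕ) (p : ℝ), 2 ≤ p → ∃ C : ℝ, ∀ R : ℝ, 0 < R →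
  ∀ (I : Fin (m + 1) → Finset (Fin m → ℤ)) (f : (Fin m → ℤ) → X m → ℂ),
    (∀ i, ∀ α ∈ I i, Continuous (f α)) →
    AA m p p R I f ≤ ENNReal.ofReal C * RR m p I f

/-- start -/
def T_STA : Prop := ∀ (m : ℕ) (p C0 : ℝ), 2 ≤ p → 0 ≤ C0 → ∀ (a b l : ℕ), l ≤ b → b ≤ a →
  ∀ g : (Fin m → ℤ) → X m → ℂ, Cls m C0 a g → ∀ τ : Fin (m + 1) → Fin m → ℤ,
  ∀ R : ℝ, 1 ≤ R → R ≤ 2 ^ b →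
    AA m p 2 R (fun i => {τ i}) (fF a l g)
      ≤ ENNReal.ofReal (2 ^ ((m + 1) * p * b)) *
        AA m p 2 (2 ^ b) (fun i => sub m b l (τ i)) (fF a b g)

/-- end -/
def T_END : Prop := ∀ (m : ℕ) (p C0 : ℝ), 2 ≤ p → 0 ≤ C0 → ∃ C : ℝ, ∀ (a b l : ℕ), l ≤ b → b ≤ a →
  ∀ g : (Fin m → ℤ) → X m → ℂ, Cls m C0 a g → ∀ τ : Fin (m + 1) → Fin m → ℤ,
    AA m p 2 (2 ^ b) (fun i => sub m b l (τ i)) (fF a b g)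
      ≤ ENNReal.ofReal (C * 2 ^ (m * (a - b) * p)) *
        RR m p (fun i => sub m a l (τ i)) (fun κ => FI (g κ))

/-- right-hand sides of two scales -/
def T_RRD : Prop := ∀ (m : ℕ) (p C0 : ℝ), 2 ≤ p → 0 ≤ C0 → ∀ (a b l : ℕ), l ≤ b → b ≤ a →
  ∀ D : ℝ≥0∞, Dec m p C0 (a - b) D → ∀ g : (Fin m → ℤ) → X m → ℂ, Cls m C0 a g →
  ∀ τ : Fin (m + 1) → Fin m → ℤ,
    RR m p (fun i => sub m b l (τ i)) (fF a b g)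
      ≤ D ^ p * RR m p (fun i => sub m a l (τ i)) (fun κ => FI (g κ))

/-- orthogonality step for `AA` -/
def T_ORA : Prop := ∀ (m : ℕ) (p C0 : ℝ), 2 ≤ p → 0 ≤ C0 → ∃ C : ℝ, ∀ (a b l : ℕ), l ≤ b →
  2 * b ≤ a → ∀ g : (Fin m → ℤ) → X m → ℂ, Cls m C0 a g → ∀ τ : Fin (m + 1) → Fin m → ℤ,
    AA m p 2 (2 ^ (2 * b)) (fun i => sub m b l (τ i)) (fF a b g)
      ≤ ENNReal.ofReal C *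
        AA m p 2 (2 ^ (2 * b)) (fun i => sub m (2 * b) l (τ i)) (fF a (2 * b) g)

/-- one step `b -> 2b` -/
def T_STEP : Prop := ∀ (m : ℕ), 1 ≤ m → ∀ p q κ : ℝ, 2 ≤ q → q ≤ p → 0 ≤ κ → κ ≤ 1 →
  1 / q = (1 - κ) / 2 + κ / p → p * m ≤ q * (m + 1) → ∀ C0 Λ : ℝ, 0 ≤ C0 →
  ∃ C : ℝ, 1 ≤ C ∧ ∀ (l1 l b a : ℕ), 1 ≤ l1 → l1 + m + 1 ≤ l → l ≤ b → 2 * b ≤ a →
  ∀ g : (Fin m → ℤ) → X m → ℂ, Cls m C0 a g → ∀ τ : Fin (m + 1) → Fin m → ℤ,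
  (∀ i, τ i ∈ Bx m l) → Tr Λ (fun i => pt l (τ i)) →
    AA m p 2 (2 ^ b) (fun i => sub m b l (τ i)) (fF a b g)
      ≤ ENNReal.ofReal (C ^ ((b : ℝ) / l1 + 2)) *
        (AA m p 2 (2 ^ (2 * b)) (fun i => sub m (2 * b) l (τ i)) (fF a (2 * b) g)) ^ (1 - κ) *
        (RR m p (fun i => sub m b l (τ i)) (fF a b g)) ^ κ

/-- the multilinear estimate -/
def T_MULT : Prop := ∀ (m : ℕ), 1 ≤ m → ∀ p q κ : ℝ, 2 ≤ q → q ≤ p → 0 ≤ κ → κ ≤ 1 →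
  1 / q = (1 - κ) / 2 + κ / p → p * m ≤ q * (m + 1) → ∀ C0 Λ η : ℝ, 0 ≤ C0 → 0 ≤ η →
  DecExp m p C0 η → ∀ (J : ℕ) (ε : ℝ), 0 < ε → ∃ l0 : ℕ, ∀ l : ℕ, l0 ≤ l → ∃ C : ℝ, 0 < C ∧
  ∀ a : ℕ, l ≤ a → ∀ g : (Fin m → ℤ) → X m → ℂ, Cls m C0 a g → ∀ τ : Fin (m + 1) → Fin m → ℤ,
  (∀ i, τ i ∈ Bx m l) → Tr Λ (fun i => pt l (τ i)) → ∀ R : ℝ, 1 ≤ R → R ≤ 2 ^ l →
    AA m p 2 R (fun i => {τ i}) (fF a l g)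
      ≤ (ENNReal.ofReal (C * 2 ^ (((m + 1) / 2 ^ J + ε + η * (1 - (1 - κ) ^ J)) * a))) ^ p *
        RR m p (fun i => sub m a l (τ i)) (fun κ => FI (g κ))

/-- subdivision of the caps of a tuple -/
def T_SPL : Prop := ∀ (m : ℕ) (p : ℝ), 0 < p → ∀ (k l : ℕ), k ≤ l → ∃ C : ℝ, ∀ a : ℕ, l ≤ a →
  ∀ (C0 : ℝ) (g : (Fin m → ℤ) → X m → ℂ), Cls m C0 a g → ∀ τ : Fin (m + 1) → Fin m → ℤ,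
  ∀ R : ℝ, 0 < R →
    AA m p 2 R (fun i => {τ i}) (fF a k g)
      ≤ ENNReal.ofReal C * ∑ τ' ∈ Fintype.piFinset (fun i => sub m l k (τ i)),
        AA m p 2 R (fun i => {τ' i}) (fF a l g)

/-! ### Bourgain-Guth -/

/-- transversal points or a hyperplane -/
def T_DIC : Prop := ∀ (m : ℕ), 1 ≤ m → ∀ r0 : ℝ, 0 ≤ r0 → ∃ C3 Λ0 : ℝ, 0 < C3 ∧ 0 < Λ0 ∧
  ∀ K : ℝ, 1 ≤ K → ∀ S : Finset (E m), (∀ s ∈ S, ‖s‖ ≤ m + 1) →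
    (∃ b : Fin (m + 1) → E m, (∀ i, b i ∈ S) ∧ Rb (Λ0 * K) (r0 / K) b) ∨
    (∃ (ν : E m) (t0 : ℝ), ‖ν‖ = 1 ∧ |t0| ≤ C3 ∧ ∀ s ∈ S, |inner ℝ ν s - t0| ≤ C3 / K)

/-- orthogonal coordinates adapted to a unit vector -/
def T_SLC : Prop := ∀ (m : ℕ) (ν : E (m + 1)), ‖ν‖ = 1 → ∃ Ψ : X m ≃ᵐ E (m + 1),
  MeasurePreserving Ψ ∧ (∀ x y, Ψ (x + y) = Ψ x + Ψ y) ∧ (∀ (r : ℝ) x, Ψ (r • x) = r • Ψ x) ∧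
  (∀ x y, inner ℝ (Ψ x) (Ψ y) = inner ℝ x.1 y.1 + x.2 * y.2) ∧ ∀ x, inner ℝ ν (Ψ x) = x.2

/-- slicing a Fourier integral -/
def T_SLF : Prop := ∀ (m : ℕ) (Ψ : X m ≃ᵐ E (m + 1)), MeasurePreserving Ψ →
  (∀ x y, inner ℝ (Ψ x) (Ψ y) = inner ℝ x.1 y.1 + x.2 * y.2) →
  ∀ g : X (m + 1) → ℂ, Integrable g → ∀ s : ℝ, ∃ G : X m → ℂ, Integrable G ∧
    (∀ z, G z ≠ 0 → ∃ t : ℝ, g (Ψ (z.1, t), z.2) ≠ 0) ∧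
    ∀ (y : E m) (w : ℝ), FI g (Ψ (y, s), w) = FI G (y, w)

/-- narrow families: caps near a hyperplane -/
def T_NAR : Prop := ∀ (m : ℕ) (p : ℝ), 2 ≤ p → LocDec m p → ∀ ε : ℝ, 0 < ε →
  ∀ (C1 C3 : ℝ) (N : ℕ), ∃ C : ℝ, 0 < C ∧ ∀ (b : ℕ) (ν : E (m + 1)) (t0 : ℝ), ‖ν‖ = 1 → |t0| ≤ C3 →
  ∀ (S : Finset (Fin (m + 1) → ℤ)) (G : (Fin (m + 1) → ℤ) → X (m + 1) → ℂ),
    S ⊆ Bx (m + 1) (2 * b) →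
    (∀ α ∈ S, InCap C1 (1 / 4 ^ b) (pt (2 * b) α) (G α) ∧
      |inner ℝ ν (pt (2 * b) α) - t0| ≤ C3 / 4 ^ b) →
    ∀ x0 : X (m + 1),
      ∫⁻ x in {x : X (m + 1) | ‖x.1 - x0.1‖ ≤ 4 ^ b ∧ |x.2 - x0.2| ≤ 4 ^ b},
          ‖∑ α ∈ S, FI (G α) x‖ₑ ^ p
        ≤ (ENNReal.ofReal (C * 2 ^ (ε * b))) ^ p *
          (∑ β ∈ Bx (m + 1) b,
            (∫⁻ x, ‖∑ α ∈ S ∩ sub (m + 1) (2 * b) b β, FI (G α) x‖ₑ ^ p *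
              wt N (4 ^ b) (x - x0)) ^ (2 / p)) ^ (p / 2)

/-- robustly transversal tuples of cells of scale `4^-b` -/
noncomputable def tup (m b : ℕ) (Λ0 : ℝ) : Finset (Fin (m + 1) → Fin m → ℤ) :=
  open Classical in
  (Fintype.piFinset (fun _ => Bx m (2 * b))).filter
    (fun τ => Rb (Λ0 * 4 ^ b) ((m + 1) / 4 ^ b) (fun i => pt (2 * b) (τ i)))

/-- local Bourgain-Guth inequality -/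
def T_BGL : Prop := ∀ m : ℕ, ∃ Λ0 : ℝ, 0 < Λ0 ∧ ∀ p : ℝ, 2 ≤ p → LocDec m p → ∀ ε : ℝ, 0 < ε →
  ∀ (C1 : ℝ) (N : ℕ), ((m : ℝ) + 3) * (p / 2 + 1) ≤ N → ∃ C : ℝ, 0 < C ∧ ∀ b : ℕ, ∃ C2 : ℝ,
  0 < C2 ∧ ∀ G : (Fin (m + 1) → ℤ) → X (m + 1) → ℂ,
    (∀ α ∈ Bx (m + 1) (2 * b), InCap C1 (1 / 4 ^ b) (pt (2 * b) α) (G α)) →
    ∀ x0 : X (m + 1),
      ∫⁻ x in {x : X (m + 1) | ‖x.1 - x0.1‖ ≤ 4 ^ b ∧ |x.2 - x0.2| ≤ 4 ^ b},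
          ‖∑ α ∈ Bx (m + 1) (2 * b), FI (G α) x‖ₑ ^ p
        ≤ (ENNReal.ofReal (C * 2 ^ (ε * b))) ^ p *
          ((∑ β ∈ Bx (m + 1) b,
            (∫⁻ x, ‖∑ α ∈ sub (m + 1) (2 * b) b β, FI (G α) x‖ₑ ^ p *
              wt N (4 ^ b) (x - x0)) ^ (2 / p)) ^ (p / 2) +
          ENNReal.ofReal ((4 ^ b) ^ (m + 2)) * (∑ α ∈ Bx (m + 1) (2 * b),
            cv (fun z => ‖FI (G α) z‖ₑ ^ (2 : ℝ)) (kw (m + 1) (4 ^ b)) x0) ^ (p / 2)) +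
          ENNReal.ofReal C2 * ∑ τ ∈ tup (m + 1) b Λ0, ∏ i : Fin (m + 2),
            (cv (fun z => ‖FI (G (τ i)) z‖ₑ ^ (2 : ℝ)) (kw (m + 1) (4 ^ b)) x0) ^ (p / (2 * (m + 2)))

/-- Bourgain-Guth inequality -/
def T_BG : Prop := ∀ m : ℕ, ∃ Λ0 : ℝ, 0 < Λ0 ∧ ∀ p : ℝ, 2 ≤ p → LocDec m p → ∀ C0 : ℝ, 0 ≤ C0 →
  ∀ ε : ℝ, 0 < ε → ∃ C1 : ℝ, 0 < C1 ∧ ∀ b : ℕ, ∃ C2 : ℝ, 0 < C2 ∧ ∀ a : ℕ, 2 * b ≤ a →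
  ∀ g : (Fin (m + 1) → ℤ) → X (m + 1) → ℂ, Cls (m + 1) C0 a g →
    nrm p (fun x => ∑ κ ∈ Bx (m + 1) a, FI (g κ) x)
      ≤ ENNReal.ofReal (C1 * 2 ^ (ε * b)) *
          (l2 (Bx (m + 1) b) (fun β => nrm p (fF a b g β)) +
            l2 (Bx (m + 1) (2 * b)) (fun α => nrm p (fF a (2 * b) g α))) +
        ENNReal.ofReal C2 * ∑ τ ∈ tup (m + 1) b Λ0,
          (AA (m + 1) p 2 (4 ^ b) (fun i => {τ i}) (fF a (2 * b) g)) ^ (1 / p)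

/-! ### Iteration and final form -/

def T_EXP : Prop := ∀ (m : ℕ) (p q κ : ℝ), 2 ≤ q → q ≤ p → 0 ≤ κ → κ ≤ 1 →
  1 / q = (1 - κ) / 2 + κ / p → p * (m + 1) ≤ q * (m + 2) → LocDec m p → ∀ C0 η : ℝ, 0 ≤ C0 →
  0 ≤ η → DecExp (m + 1) p C0 η → ∀ (J : ℕ) (ε : ℝ), 0 < ε →
    DecExp (m + 1) p C0 ((m + 2) / 2 ^ J + ε + η * (1 - (1 - κ) ^ J))

def T_FIN : Prop := ∀ (m : ℕ) (p : ℝ), 2 ≤ p → (m + 1) * (p - 2) < 4 → LocDec m p →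
  ∀ C0 : ℝ, 0 ≤ C0 → ∀ ε : ℝ, 0 < ε → DecExp (m + 1) p C0 ε

/-- global form with general centres -/
def GlobDec (m : ℕ) (p : ℝ) : Prop :=
  ∀ ε : ℝ, 0 < ε → ∀ (C0 R1 : ℝ) (M : ℕ), ∃ C : ℝ, 0 < C ∧ ∀ a : ℕ, ∀ (ι : Type) (T : Finset ι)
    (c : ι → E m) (g : ι → X m → ℂ),
    (∀ t ∈ T, ‖c t‖ ≤ R1) →
    (∀ t ∈ T, InCap C0 (1 / 2 ^ a) (c t) (g t)) →
    (∀ ξ : E m, ∀ T' ⊆ T, (∀ t ∈ T', ‖ξ - c t‖ ≤ 1 / 2 ^ a) → T'.card ≤ M) →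
    nrm p (fun x => ∑ t ∈ T, FI (g t) x)
      ≤ ENNReal.ofReal (C * 2 ^ (ε * a)) * l2 T (fun t => nrm p (FI (g t)))

def T_GNA : Prop := ∀ (m : ℕ) (p : ℝ), 2 ≤ p →
  (∀ C0 : ℝ, 0 ≤ C0 → ∀ ε : ℝ, 0 < ε → DecExp m p C0 ε) → GlobDec m p

def T_GNB : Prop := ∀ (m : ℕ) (p : ℝ), 2 ≤ p → GlobDec m p → LocDec m p

def T_M0 : Prop := ∀ p : ℝ, 2 ≤ p → LocDec 0 p

/-- the decoupling theorem -/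
def T_MAIN : Prop := ∀ (m : ℕ) (p : ℝ), 2 ≤ p → m * (p - 2) < 4 → LocDec m p

/-- the form asked for by helper83: real scale `K`, `1/K`-separated centres -/
def T_IFC : Prop := ∀ (m : ℕ) (p : ℝ), 2 ≤ p → m * (p - 2) < 4 → ∀ ε : ℝ, 0 < ε →
  ∀ (C0 : ℝ) (N : ℕ), ∃ C : ℝ, 0 < C ∧ ∀ K : ℝ, 1 ≤ K → ∀ (ι : Type) (T : Finset ι)
    (c : ι → E m) (g : ι → X m → ℂ),
    (∀ t ∈ T, ‖c t‖ ≤ C0) →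
    (∀ t ∈ T, ∀ t' ∈ T, t ≠ t' → 1 / K ≤ ‖c t - c t'‖) →
    (∀ t ∈ T, Integrable (g t) ∧
      ∀ z, g t z ≠ 0 → ‖z.1 - c t‖ ≤ C0 / K ∧ |z.2 - ‖z.1‖ ^ 2| ≤ C0 / K ^ 2) →
    ∀ x0 : X m,
      ∫⁻ x in Metric.closedBall x0 (K ^ 2), ‖∑ t ∈ T, FI (g t) x‖ₑ ^ p
        ≤ ENNReal.ofReal (C * K ^ ε) *
          (∑ t ∈ T, (∫⁻ x, ‖FI (g t) x‖ₑ ^ p *
            ENNReal.ofReal (((1 + ‖x - x0‖ / K ^ 2) ^ N)⁻¹)) ^ (2 / p)) ^ (p / 2)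

end Pool.Agent.H93.BD
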