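import Pool.Agent.H93.BD.Defs

open MeasureTheory
open scoped ENNReal NNReal

namespace Pool.Agent.H93.BD

theorem Dec_mono {m : ℕ} {p C0 : ℝ} {a : ℕ} {D D' : ℝ≥0∞} (h : Dec m p C0 a D) (hD : D ≤ D') :
    Dec m p C0 a D' := fun g hg => (h g hg).trans (mul_le_mul_left hD _)

theorem DecExp_mono {m : ℕ} {p C0 η η' : ℝ} (h : DecExp m p C0 η) (hη : η ≤ η') :
    DecExp m p C0 η' := by
  obtain ⟨C, hC, h⟩ := h
  refine ⟨C, hC, fun a => Dec_mono (h a) (ENNReal.ofReal_le_ofReal ?_)⟩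
  apply mul_le_mul_of_nonneg_left _ hC.le
  apply Real.rpow_le_rpow_of_exponent_le (by norm_num)
  exact mul_le_mul_of_nonneg_right hη (Nat.cast_nonneg a)

end Pool.Agent.H93.BD
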