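import Pool.Agent.H93.BD.Targets2
import Pool.Agent.H93.BD.Mono

open MeasureTheory
open scoped ENNReal NNReal

namespace Pool.Agent.H93.BD

theorem l2_rpow_two {ι : Type} (s : Finset ι) (u : ι → ℝ≥0∞) :
    (l2 s u) ^ (2 : ℝ) = ∑ i ∈ s, u i ^ (2 : ℝ) := by
  unfold l2
  rw [← ENNReal.rpow_mul]; norm_num

theorem l2_mono_set {ι : Type} {s t : Finset ι} (h : s ⊆ t) (u : ι → ℝ≥0∞) : l2 s u ≤ l2 t u := by
  unfold l2
  exact ENNReal.rpow_le_rpow (Finset.sum_le_sum_of_subset h) (by norm_num)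

/-- combining `l^2` norms over the cells -/
theorem l2_comb (hSUB : T_SUB) {m a b : ℕ} (hba : b ≤ a) {D : ℝ≥0∞} (u v : (Fin m → ℤ) → ℝ≥0∞)
    (h : ∀ β ∈ Bx m b, u β ≤ D * l2 (sub m a b β) v) : l2 (Bx m b) u ≤ D * l2 (Bx m a) v := by
  obtain ⟨-, -, h3, -⟩ := hSUB m a b b le_rfl hba
  have h1 : ∑ β ∈ Bx m b, u β ^ (2 : ℝ) ≤ D ^ (2 : ℝ) * ∑ κ ∈ Bx m a, v κ ^ (2 : ℝ) := by
    rw [h3 ℝ≥0∞ (fun κ => v κ ^ (2 : ℝ)), Finset.mul_sum]
    refine Finset.sum_le_sum fun β hβ => ?_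
    rw [← l2_rpow_two, ← ENNReal.mul_rpow_of_nonneg _ _ (by norm_num)]
    exact ENNReal.rpow_le_rpow (h β hβ) (by norm_num)
  unfold l2
  calc (∑ β ∈ Bx m b, u β ^ (2 : ℝ)) ^ (1 / 2 : ℝ)
      ≤ (D ^ (2 : ℝ) * ∑ κ ∈ Bx m a, v κ ^ (2 : ℝ)) ^ (1 / 2 : ℝ) :=
        ENNReal.rpow_le_rpow h1 (by norm_num)
    _ = D * (∑ κ ∈ Bx m a, v κ ^ (2 : ℝ)) ^ (1 / 2 : ℝ) := by
        rw [ENNReal.mul_rpow_of_nonneg _ _ (by norm_num), ← ENNReal.rpow_mul]
        norm_num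

theorem sub_subset {m a l : ℕ} (τ : Fin m → ℤ) : sub m a l τ ⊆ Bx m a := Finset.filter_subset _ _

/-- `RR` against the full `l^2` norm -/
theorem RR_le_l2 {m : ℕ} {p : ℝ} (hp : 0 < p) (a l : ℕ) (τ : Fin (m + 1) → Fin m → ℤ)
    (f : (Fin m → ℤ) → X m → ℂ) :
    RR m p (fun i => sub m a l (τ i)) f ≤ (l2 (Bx m a) (fun κ => nrm p (f κ))) ^ p := by
  unfold RR
  have h1 : ∀ i : Fin (m + 1), (∑ α ∈ sub m a l (τ i), nrm p (f α) ^ (2 : ℝ)) ^ (p / (2 * (m + 1)))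
      ≤ (∑ α ∈ Bx m a, nrm p (f α) ^ (2 : ℝ)) ^ (p / (2 * (m + 1))) := by
    intro i
    exact ENNReal.rpow_le_rpow (Finset.sum_le_sum_of_subset (sub_subset _)) (by positivity)
  refine (Finset.prod_le_prod' fun i _ => h1 i).trans ?_
  rw [Finset.prod_const, Finset.card_univ, Fintype.card_fin, ← ENNReal.rpow_natCast,
    ← ENNReal.rpow_mul]
  unfold l2
  rw [← ENNReal.rpow_mul]
  apply le_of_eq
  congr 1
  push_cast
  field_simp

theorem pf_EXP (hBG : T_BG) (hSPL : T_SPL) (hMULT : T_MULT) (hRES : T_RES) (hTRV : T_TRV)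
    (hSUB : T_SUB) : T_EXP := by
  intro m p q κ h2q hqp hκ0 hκ1 hqκ hpq hloc C0 η hC0 hη hDec J ε hε
  have hp2 : 2 ≤ p := h2q.trans hqp
  have hp0 : 0 < p := by linarith
  obtain ⟨Λ0, hΛ0, hBG⟩ := hBG m
  set α : ℝ := ((m : ℝ) + 2) / 2 ^ J + ε + η * (1 - (1 - κ) ^ J) with hα
  have hκJ : 0 ≤ 1 - (1 - κ) ^ J := by
    have := pow_le_one₀ (n := J) (show 0 ≤ 1 - κ by linarith) (by linarith)
    linarith
  have hα0 : 0 < α := by
    have h1 : 0 ≤ η * (1 - (1 - κ) ^ J) := mul_nonneg hη hκJ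
    have h2 : 0 ≤ ((m : ℝ) + 2) / 2 ^ J := by positivity
    rw [hα]; linarith
  obtain ⟨C1, hC1, hBG⟩ := hBG p hp2 hloc C0 hC0 (α / 2) (by linarith)
  -- choice of b
  obtain ⟨b, hb1, hb⟩ : ∃ b : ℕ, 1 ≤ b ∧ 2 * C1 * (2 : ℝ) ^ (-(α / 2) * b) ≤ 1 / 2 := by
    have hlt : (2 : ℝ) ^ (-(α / 2)) < 1 := Real.rpow_lt_one_of_one_lt_of_neg (by norm_num) (by linarith)
    have hpos : 0 < (2 : ℝ) ^ (-(α / 2)) := by positivity
    obtain ⟨b, hb⟩ := exists_pow_lt_of_lt_one (show 0 < 1 / (4 * C1) by positivity) hlt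
    refine ⟨b + 1, by omega, ?_⟩
    rw [Real.rpow_mul (by norm_num), Real.rpow_natCast, pow_succ]
    rw [lt_div_iff₀ (by positivity)] at hb
    nlinarith [pow_pos hpos b, mul_pos (pow_pos hpos b) hC1,
      mul_lt_mul_of_pos_left hlt (mul_pos (pow_pos hpos b) hC1)]
  obtain ⟨C2, hC2, hBG⟩ := hBG b
  have hcast : ((m + 1 : ℕ) : ℝ) = (m : ℝ) + 1 := by push_cast; ring
  obtain ⟨l0, hl0⟩ := hMULT (m + 1) (by omega) p q κ h2q hqp hκ0 hκ1 hqκ
    (by rw [hcast]; linarith) C0 (Λ0 * 4 ^ b) η hC0 hη hDec J ε hε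
  set l : ℕ := max l0 (2 * b) with hl
  have hl2b : 2 * b ≤ l := le_max_right _ _
  obtain ⟨C3, hC3, hMULT⟩ := hl0 l (le_max_left _ _)
  obtain ⟨C4, hSPL⟩ := hSPL (m + 1) p hp0 (2 * b) l hl2b
  -- constants
  set N4 : ℕ := (Fintype.piFinset (fun _ : Fin (m + 1 + 1) => Bx (m + 1) l)).card with hN4
  set K : ℝ≥0∞ := ENNReal.ofReal C2 * ((tup (m + 1) b Λ0).card *
    ((ENNReal.ofReal C4 * N4) ^ (1 / p) * ENNReal.ofReal C3)) with hK
  have hKfin : K ≠ ∞ := by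
    rw [hK]
    have h1 : (ENNReal.ofReal C4 * (N4 : ℝ≥0∞)) ^ (1 / p) ≠ ∞ :=
      ENNReal.rpow_ne_top_of_nonneg (by positivity)
        (ENNReal.mul_ne_top ENNReal.ofReal_ne_top (ENNReal.natCast_ne_top _))
    exact ENNReal.mul_ne_top ENNReal.ofReal_ne_top (ENNReal.mul_ne_top (ENNReal.natCast_ne_top _)
      (ENNReal.mul_ne_top h1 ENNReal.ofReal_ne_top))
  -- multilinear term
  have hmult : ∀ a : ℕ, l ≤ a → ∀ g : (Fin (m + 1) → ℤ) → X (m + 1) → ℂ, Cls (m + 1) C0 a g →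
      ENNReal.ofReal C2 * ∑ τ ∈ tup (m + 1) b Λ0,
          (AA (m + 1) p 2 (4 ^ b) (fun i => {τ i}) (fF a (2 * b) g)) ^ (1 / p)
        ≤ K * ENNReal.ofReal (2 ^ (α * a)) *
          l2 (Bx (m + 1) a) (fun κ => nrm p (FI (g κ))) := by
    intro a hla g hg
    set Lw := l2 (Bx (m + 1) a) (fun κ => nrm p (FI (g κ))) with hLw
    have hone : ∀ τ ∈ tup (m + 1) b Λ0,
        (AA (m + 1) p 2 (4 ^ b) (fun i => {τ i}) (fF a (2 * b) g)) ^ (1 / p)
          ≤ (ENNReal.ofReal C4 * N4) ^ (1 / p) * ENNReal.ofReal C3 *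
            ENNReal.ofReal (2 ^ (α * a)) * Lw := by
      intro τ hτ
      have hτ' := hτ
      simp only [tup, Finset.mem_filter, Fintype.mem_piFinset] at hτ'
      obtain ⟨hτ1, hτ2⟩ := hτ'
      have h1 := hSPL a hla C0 g hg τ (4 ^ b) (by positivity)
      have h2 : ∀ τ' ∈ Fintype.piFinset (fun i => sub (m + 1) l (2 * b) (τ i)),
          AA (m + 1) p 2 (4 ^ b) (fun i => {τ' i}) (fF a l g)
            ≤ (ENNReal.ofReal (C3 * 2 ^ (α * a))) ^ p * Lw ^ p := by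
        intro τ' hτ'
        rw [Fintype.mem_piFinset] at hτ'
        obtain ⟨-, -, -, -, h5, -⟩ := hSUB (m + 1) l l (2 * b) hl2b le_rfl
        have htr : Tr (Λ0 * 4 ^ b) (fun i => pt l (τ' i)) := by
          apply hτ2
          intro i
          have := (h5 (τ i) (τ' i) (hτ' i)).2.2
          refine this.trans (le_of_eq ?_)
          rw [pow_mul]
          norm_num
        have hR : (4 : ℝ) ^ b ≤ 2 ^ l := by
          calc (4 : ℝ) ^ b = 2 ^ (2 * b) := by rw [pow_mul]; norm_num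
            _ ≤ 2 ^ l := pow_le_pow_right₀ (by norm_num) hl2b
        have h6 := hMULT a hla g hg τ' (fun i => (h5 (τ i) (τ' i) (hτ' i)).1) htr (4 ^ b)
          (one_le_pow₀ (by norm_num)) hR
        refine h6.trans ?_
        have hexp : ((((m + 1 : ℕ) : ℝ) + 1) / 2 ^ J + ε + η * (1 - (1 - κ) ^ J)) = α := by
          rw [hα, hcast]; ring
        rw [hexp]
        exact mul_le_mul_right (RR_le_l2 hp0 a l τ' _) _
      have h3 : AA (m + 1) p 2 (4 ^ b) (fun i => {τ i}) (fF a (2 * b) g)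
          ≤ ENNReal.ofReal C4 * (N4 * ((ENNReal.ofReal (C3 * 2 ^ (α * a))) ^ p * Lw ^ p)) := by
        refine h1.trans (mul_le_mul_right ?_ _)
        refine (Finset.sum_le_sum h2).trans ?_
        rw [Finset.sum_const, nsmul_eq_mul]
        refine mul_le_mul_left ?_ _
        rw [hN4]
        exact_mod_cast Finset.card_le_card (Fintype.piFinset_subset _ _ fun i => sub_subset _)
      calc (AA (m + 1) p 2 (4 ^ b) (fun i => {τ i}) (fF a (2 * b) g)) ^ (1 / p)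
          ≤ (ENNReal.ofReal C4 * (N4 * ((ENNReal.ofReal (C3 * 2 ^ (α * a))) ^ p * Lw ^ p))) ^ (1 / p) :=
            ENNReal.rpow_le_rpow h3 (by positivity)
        _ = (ENNReal.ofReal C4 * N4) ^ (1 / p) * ENNReal.ofReal C3 *
            ENNReal.ofReal (2 ^ (α * a)) * Lw := by
            rw [← mul_assoc, ← mul_assoc, ENNReal.mul_rpow_of_nonneg _ _ (by positivity),
              ENNReal.mul_rpow_of_nonneg _ _ (by positivity), ← ENNReal.rpow_mul, ← ENNReal.rpow_mul,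
              mul_one_div_cancel hp0.ne', ENNReal.rpow_one, ENNReal.rpow_one,
              ENNReal.ofReal_mul hC3.le]
            ring
    refine (mul_le_mul_right (Finset.sum_le_sum hone) _).trans (le_of_eq ?_)
    rw [Finset.sum_const, nsmul_eq_mul, hK]
    ring
  -- the constant A
  set C' : ℝ := K.toReal with hC'
  have hKC : K = ENNReal.ofReal C' := (ENNReal.ofReal_toReal hKfin).symm
  have hC'0 : 0 ≤ C' := ENNReal.toReal_nonneg
  set A : ℝ := max (2 * C' + 1) (2 ^ (((m + 1 : ℕ) : ℝ) / 2 * l)) with hA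
  have hA1 : 2 * C' ≤ A := by
    have := le_max_left (2 * C' + 1) ((2 : ℝ) ^ (((m + 1 : ℕ) : ℝ) / 2 * l))
    linarith
  have hA0 : 0 < A := by
    have := le_max_left (2 * C' + 1) ((2 : ℝ) ^ (((m + 1 : ℕ) : ℝ) / 2 * l))
    linarith
  refine ⟨A, hA0, fun a => ?_⟩
  induction a using Nat.strong_induction_on with
  | _ a ih =>
  rcases lt_or_ge a l with hal | hla
  · refine Dec_mono (hTRV (m + 1) p C0 (by linarith) a) (ENNReal.ofReal_le_ofReal ?_)
    have h1 : (2 : ℝ) ^ (((m + 1 : ℕ) : ℝ) / 2 * a) ≤ 2 ^ (((m + 1 : ℕ) : ℝ) / 2 * l) := by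
      apply Real.rpow_le_rpow_of_exponent_le (by norm_num)
      apply mul_le_mul_of_nonneg_left _ (by positivity)
      exact_mod_cast hal.le
    have h2 : (1 : ℝ) ≤ 2 ^ (α * a) := Real.one_le_rpow (by norm_num) (by positivity)
    calc (2 : ℝ) ^ (((m + 1 : ℕ) : ℝ) / 2 * a) ≤ A := h1.trans (le_max_right _ _)
      _ ≤ A * 2 ^ (α * a) := le_mul_of_one_le_right hA0.le h2
  · intro g hg
    have hb2a : 2 * b ≤ a := hl2b.trans hla
    have hba : b ≤ a := by omega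
    set Lw := l2 (Bx (m + 1) a) (fun κ => nrm p (FI (g κ))) with hLw
    have hD : ∀ c : ℕ, 1 ≤ c → c ≤ a → b ≤ c →
        l2 (Bx (m + 1) c) (fun β => nrm p (fF a c g β))
          ≤ ENNReal.ofReal (A * 2 ^ (α * (a - b : ℝ))) * Lw := by
      intro c hc1 hca hbc
      refine l2_comb hSUB hca _ _ fun β hβ => ?_
      refine (hRES (m + 1) p C0 hp0 a c hca _ (ih (a - c) (by omega)) g hg β hβ).trans ?_
      refine mul_le_mul_left (ENNReal.ofReal_le_ofReal ?_) _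
      apply mul_le_mul_of_nonneg_left _ hA0.le
      apply Real.rpow_le_rpow_of_exponent_le (by norm_num)
      apply mul_le_mul_of_nonneg_left _ hα0.le
      rw [Nat.cast_sub hca]
      have : (b : ℝ) ≤ c := by exact_mod_cast hbc
      linarith
    have h1 := hBG a hb2a g hg
    refine h1.trans ?_
    have h2 := hD b hb1 hba le_rfl
    have h3 := hD (2 * b) (by omega) hb2a (by omega)
    have h4 := hmult a hla g hg
    calc ENNReal.ofReal (C1 * 2 ^ (α / 2 * b)) *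
          (l2 (Bx (m + 1) b) (fun β => nrm p (fF a b g β)) +
            l2 (Bx (m + 1) (2 * b)) (fun α => nrm p (fF a (2 * b) g α))) +
        ENNReal.ofReal C2 * ∑ τ ∈ tup (m + 1) b Λ0,
          (AA (m + 1) p 2 (4 ^ b) (fun i => {τ i}) (fF a (2 * b) g)) ^ (1 / p)
        ≤ ENNReal.ofReal (C1 * 2 ^ (α / 2 * b)) *
          (ENNReal.ofReal (A * 2 ^ (α * (a - b : ℝ))) * Lw +
            ENNReal.ofReal (A * 2 ^ (α * (a - b : ℝ))) * Lw) +
          K * ENNReal.ofReal (2 ^ (α * a)) * Lw := by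
          gcongr
      _ = (ENNReal.ofReal (C1 * 2 ^ (α / 2 * b) * (A * 2 ^ (α * (a - b : ℝ)) * 2)) +
            ENNReal.ofReal (C' * 2 ^ (α * a))) * Lw := by
          have e1 : ∀ x y : ℝ, 0 ≤ x → 0 ≤ y → ENNReal.ofReal (x * (y * 2)) =
              ENNReal.ofReal x * (ENNReal.ofReal y * 2) := by
            intro x y hx hy
            rw [ENNReal.ofReal_mul hx, ENNReal.ofReal_mul hy, ENNReal.ofReal_ofNat]
          rw [hKC, e1 _ _ (by positivity) (by positivity), ENNReal.ofReal_mul hC'0]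
          ring
      _ ≤ ENNReal.ofReal (A * 2 ^ (α * a)) * Lw := by
          refine mul_le_mul_left ?_ _
          rw [← ENNReal.ofReal_add (by positivity) (by positivity)]
          apply ENNReal.ofReal_le_ofReal
          have h5 : (2 : ℝ) ^ (α / 2 * b) * 2 ^ (α * (a - b : ℝ)) = 2 ^ (-(α / 2) * b) * 2 ^ (α * a) := by
            rw [← Real.rpow_add (by norm_num), ← Real.rpow_add (by norm_num)]
            congr 1; ring
          have h6 : 0 < (2 : ℝ) ^ (α * a) := by positivity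
          calc C1 * 2 ^ (α / 2 * b) * (A * 2 ^ (α * (a - b : ℝ)) * 2) + C' * 2 ^ (α * a)
              = 2 * C1 * A * (2 ^ (α / 2 * b) * 2 ^ (α * (a - b : ℝ))) + C' * 2 ^ (α * a) := by ring
            _ = (2 * C1 * 2 ^ (-(α / 2) * b)) * (A * 2 ^ (α * a)) + C' * 2 ^ (α * a) := by
                rw [h5]; ring
            _ ≤ 1 / 2 * (A * 2 ^ (α * a)) + A / 2 * 2 ^ (α * a) := by
                gcongr
                linarith
            _ = A * 2 ^ (α * a) := by ring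

end Pool.Agent.H93.BD
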