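import Pool.Agent.H93.BD.Targets2
import Pool.Agent.H93.BD.Mono

open MeasureTheory
open scoped ENNReal NNReal

namespace Pool.Agent.H93.BD

theorem fin_aux (m : ℕ) (p q κ : ℝ) (h2q : 2 ≤ q) (hqp : q ≤ p) (hκ0 : 0 ≤ κ) (hκ1 : κ < 1 / 2)
    (hqκ : 1 / q = (1 - κ) / 2 + κ / p) (hpq : p * (m + 1) ≤ q * (m + 2))
    (hEXP : T_EXP) (hTRV : T_TRV) (hloc : LocDec m p) (C0 : ℝ) (hC0 : 0 ≤ C0) (ε : ℝ) (hε : 0 < ε) :
    DecExp (m + 1) p C0 ε := by
  set r : ℝ := 1 - κ with hr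
  have hr1 : 1 / 2 < r := by rw [hr]; linarith
  have hr2 : r ≤ 1 := by rw [hr]; linarith
  have hr0 : 0 < r := by linarith
  set η0 : ℝ := ((m + 1 : ℕ) : ℝ) / 2 with hη0
  have hη0n : 0 ≤ η0 := by positivity
  have hbase : DecExp (m + 1) p C0 η0 := by
    refine ⟨1, one_pos, fun a => ?_⟩
    rw [one_mul]
    exact hTRV (m + 1) p C0 (by linarith) a
  -- choice of J
  obtain ⟨J, hJ⟩ : ∃ J : ℕ, ((m : ℝ) + 2) * (1 / (2 * r)) ^ J < ε / 3 := by
    have h1 : (1 / (2 * r)) < 1 := by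
      rw [div_lt_one (by linarith)]; linarith
    have h2 : 0 ≤ (1 / (2 * r)) := by positivity
    obtain ⟨J, hJ⟩ := exists_pow_lt_of_lt_one (show 0 < ε / 3 / ((m : ℝ) + 2) by positivity) h1
    refine ⟨J, ?_⟩
    rw [lt_div_iff₀ (by positivity)] at hJ
    linarith
  set ρ : ℝ := r ^ J with hρ
  have hρ0 : 0 < ρ := by positivity
  have hρ1 : ρ ≤ 1 := pow_le_one₀ hr0.le hr2
  set e' : ℝ := ε / 3 * ρ with he'
  have he'0 : 0 < e' := by positivity
  set A : ℝ := ((m : ℝ) + 2) / 2 ^ J + e' with hA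
  have hA0 : 0 < A := by positivity
  have hAρ : A / ρ < 2 * ε / 3 := by
    have h1 : A / ρ = ((m : ℝ) + 2) * (1 / (2 * r)) ^ J + ε / 3 := by
      rw [hA, he', hρ, one_div, inv_pow, mul_pow]
      field_simp
    rw [h1]; linarith
  have hiter : ∀ i : ℕ, DecExp (m + 1) p C0 (A / ρ + (1 - ρ) ^ i * η0) := by
    intro i
    induction i with
    | zero =>
      refine DecExp_mono hbase ?_
      simp only [pow_zero, one_mul]
      have : 0 < A / ρ := by positivity
      linarith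
    | succ i ih =>
      have hn : 0 ≤ A / ρ + (1 - ρ) ^ i * η0 := by
        have : 0 ≤ 1 - ρ := by linarith
        positivity
      have h := hEXP m p q κ h2q hqp hκ0 (by linarith) hqκ hpq hloc C0 _ hC0 hn ih J e' he'0
      have heq : ((m : ℝ) + 2) / 2 ^ J + e' + (A / ρ + (1 - ρ) ^ i * η0) * (1 - (1 - κ) ^ J)
          = A / ρ + (1 - ρ) ^ (i + 1) * η0 := by
        rw [← hr, ← hρ, ← hA, pow_succ]
        field_simp
        ring
      rw [heq] at h
      exact h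
  obtain ⟨i, hi⟩ : ∃ i : ℕ, (1 - ρ) ^ i * η0 < ε / 3 := by
    obtain ⟨i, hi⟩ := exists_pow_lt_of_lt_one (show 0 < ε / 3 / (η0 + 1) by positivity)
      (show 1 - ρ < 1 by linarith)
    refine ⟨i, ?_⟩
    rw [lt_div_iff₀ (by positivity)] at hi
    have h3 : 0 ≤ (1 - ρ) ^ i := pow_nonneg (by linarith) i
    nlinarith
  exact DecExp_mono (hiter i) (by linarith)

theorem pf_FIN (hEXP : T_EXP) (hTRV : T_TRV) : T_FIN := by
  intro m p hp hsub hloc C0 hC0 ε hε
  have hm : (0 : ℝ) ≤ m := Nat.cast_nonneg m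
  rcases le_or_gt (p * (m + 1)) (2 * (m + 2)) with hA | hB
  · refine fin_aux m p 2 0 le_rfl hp le_rfl (by norm_num) (by norm_num) hA hEXP hTRV hloc C0 hC0 ε hε
  · have hp2 : 2 < p := by
      by_contra h
      push Not at h
      nlinarith
    have hm1 : (0 : ℝ) < m + 1 := by linarith
    have hm2 : (0 : ℝ) < m + 2 := by linarith
    refine fin_aux m p (p * (m + 1) / (m + 2)) ((p * (m + 1) - 2 * (m + 2)) / ((m + 1) * (p - 2)))
      ?_ ?_ ?_ ?_ ?_ ?_ hEXP hTRV hloc C0 hC0 ε hε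
    · rw [le_div_iff₀ hm2]; linarith
    · rw [div_le_iff₀ hm2]; nlinarith
    · apply div_nonneg (by linarith)
      exact mul_nonneg hm1.le (by linarith)
    · rw [div_lt_iff₀ (mul_pos hm1 (by linarith))]
      nlinarith
    · have h1 : p - 2 ≠ 0 := by linarith
      have h2 : p ≠ 0 := by linarith
      field_simp
      ring
    · rw [div_mul_cancel₀]
      exact hm2.ne'

end Pool.Agent.H93.BD
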