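import Pool.Agent.H93.BD.Targets2

open MeasureTheory
open scoped ENNReal NNReal

namespace Pool.Agent.H93.BD

theorem pf_MAIN (hFIN : T_FIN) (hGNA : T_GNA) (hGNB : T_GNB) (hM0 : T_M0) : T_MAIN := by
  intro m
  induction m with
  | zero => intro p hp _; exact hM0 p hp
  | succ m ih =>
    intro p hp h
    have hcast : ((m + 1 : ℕ) : ℝ) = (m : ℝ) + 1 := by push_cast; ring
    rw [hcast] at h
    have h1 : (m : ℝ) * (p - 2) < 4 := by nlinarith
    exact hGNB (m + 1) p hp (hGNA (m + 1) p hp (hFIN m p hp h (ih p hp h1)))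

end Pool.Agent.H93.BD
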