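import Pool.Agent.H93.BD.Targets2
import Pool.Agent.H93.BD.Mono

open MeasureTheory
open scoped ENNReal NNReal

namespace Pool.Agent.H93.BD

/-- one induction step, in terms of real constants -/
theorem mult_step {CS KE G p κ s T e : ℝ} (hCS : 1 ≤ CS) (hKE : 1 ≤ KE) (hG : 1 ≤ G) (hp : 0 < p)
    (hκ0 : 0 ≤ κ) (hκ1 : κ ≤ 1) (hT : 0 ≤ T) {X Y F R : ℝ≥0∞} (_he : 0 ≤ e)
    (hstep : X ≤ ENNReal.ofReal (CS ^ s) * Y ^ (1 - κ) * R ^ κ)
    (hR : R ≤ (ENNReal.ofReal G) ^ p * F)
    (hY : Y ≤ ENNReal.ofReal (KE * CS ^ T * G ^ (p * e)) * F) :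
    X ≤ ENNReal.ofReal (KE * CS ^ (T + s) * G ^ (p * ((1 - κ) * e + κ))) * F := by
  have hCS0 : 0 < CS := by linarith
  have hG0 : 0 < G := by linarith
  have hKE0 : 0 < KE := by linarith
  have h1κ : 0 ≤ 1 - κ := by linarith
  have hY1 : Y ^ (1 - κ) ≤ ENNReal.ofReal (KE * CS ^ T * G ^ (p * (1 - κ) * e)) * F ^ (1 - κ) := by
    refine (ENNReal.rpow_le_rpow hY h1κ).trans ?_
    rw [ENNReal.mul_rpow_of_nonneg _ _ h1κ]
    refine mul_le_mul_left ?_ _
    rw [ENNReal.ofReal_rpow_of_nonneg (by positivity) h1κ]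
    apply ENNReal.ofReal_le_ofReal
    rw [Real.mul_rpow (by positivity) (by positivity), ← Real.rpow_mul hG0.le]
    have h1 : p * e * (1 - κ) = p * (1 - κ) * e := by ring
    rw [h1]
    refine mul_le_mul_of_nonneg_right ?_ (by positivity)
    have h2 : 1 ≤ KE * CS ^ T := by
      have : 1 ≤ CS ^ T := Real.one_le_rpow hCS hT
      nlinarith
    calc (KE * CS ^ T) ^ (1 - κ) ≤ (KE * CS ^ T) ^ (1 : ℝ) :=
          Real.rpow_le_rpow_of_exponent_le h2 (by linarith)
      _ = KE * CS ^ T := Real.rpow_one _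
  have hR1 : R ^ κ ≤ ENNReal.ofReal (G ^ (p * κ)) * F ^ κ := by
    refine (ENNReal.rpow_le_rpow hR hκ0).trans ?_
    rw [ENNReal.mul_rpow_of_nonneg _ _ hκ0, ← ENNReal.rpow_mul,
      ENNReal.ofReal_rpow_of_nonneg hG0.le (by positivity)]
  have hF : F ^ (1 - κ) * F ^ κ = F := by
    rw [← ENNReal.rpow_add_of_nonneg _ _ h1κ hκ0]
    have : (1 - κ) + κ = 1 := by ring
    rw [this, ENNReal.rpow_one]
  calc X ≤ ENNReal.ofReal (CS ^ s) * Y ^ (1 - κ) * R ^ κ := hstep
    _ ≤ ENNReal.ofReal (CS ^ s) *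
        (ENNReal.ofReal (KE * CS ^ T * G ^ (p * (1 - κ) * e)) * F ^ (1 - κ)) *
        (ENNReal.ofReal (G ^ (p * κ)) * F ^ κ) := by gcongr
    _ = (ENNReal.ofReal (CS ^ s) * ENNReal.ofReal (KE * CS ^ T * G ^ (p * (1 - κ) * e)) *
        ENNReal.ofReal (G ^ (p * κ))) * (F ^ (1 - κ) * F ^ κ) := by ring
    _ = ENNReal.ofReal (KE * CS ^ (T + s) * G ^ (p * ((1 - κ) * e + κ))) * F := by
        rw [hF, ← ENNReal.ofReal_mul (by positivity), ← ENNReal.ofReal_mul (by positivity)]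
        congr 2
        have h3 : p * ((1 - κ) * e + κ) = p * (1 - κ) * e + p * κ := by ring
        rw [h3, Real.rpow_add hG0, Real.rpow_add hCS0]
        ring

theorem pf_MULT (hSTEP : T_STEP) (hSTA : T_STA) (hEND : T_END) (hRRD : T_RRD) : T_MULT := by
  intro m hm p q κ h2q hqp hκ0 hκ1 hqκ hpq C0 Λ η hC0 hη hDec J ε hε
  obtain ⟨Cη, hCη, hDec⟩ := hDec
  have hp2 : 2 ≤ p := h2q.trans hqp
  have hp0 : 0 < p := by linarith
  obtain ⟨CS, hCS, hSTEP⟩ := hSTEP m hm p q κ h2q hqp hκ0 hκ1 hqκ hpq C0 Λ hC0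
  have hCS0 : 0 < CS := by linarith
  obtain ⟨CE, hEND⟩ := hEND m p C0 hp2 hC0
  set CE1 : ℝ := max CE 1 with hCE1
  have hCE1' : 1 ≤ CE1 := le_max_right _ _
  -- l1
  obtain ⟨l1, hl1, hl1C⟩ : ∃ l1 : ℕ, 1 ≤ l1 ∧ CS ≤ 2 ^ (ε * p * l1) := by
    have h1 : (1 : ℝ) < 2 ^ (ε * p) := Real.one_lt_rpow (by norm_num) (by positivity)
    obtain ⟨n, hn⟩ := pow_unbounded_of_one_lt CS h1
    refine ⟨n + 1, by omega, ?_⟩
    rw [Real.rpow_mul (by norm_num), Real.rpow_natCast, pow_succ]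
    have h2 : 0 < ((2 : ℝ) ^ (ε * p)) ^ n := by positivity
    have h3 : ((2 : ℝ) ^ (ε * p)) ^ n ≤ ((2 : ℝ) ^ (ε * p)) ^ n * 2 ^ (ε * p) :=
      le_mul_of_one_le_right h2.le h1.le
    linarith
  have hl1pos : (0 : ℝ) < l1 := by exact_mod_cast hl1
  refine ⟨l1 + m + 1, fun l hl => ?_⟩
  set α : ℝ := ((m : ℝ) + 1) / 2 ^ J + ε + η * (1 - (1 - κ) ^ J) with hα
  have hκJ1 : (1 - κ) ^ J ≤ 1 := pow_le_one₀ (by linarith) (by linarith)
  have hκJ0 : 0 ≤ (1 - κ) ^ J := pow_nonneg (by linarith) J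
  have hα0 : 0 < α := by
    have h1 : 0 ≤ η * (1 - (1 - κ) ^ J) := mul_nonneg hη (by linarith)
    have h2 : 0 ≤ ((m : ℝ) + 1) / 2 ^ J := by positivity
    rw [hα]; linarith
  -- constants
  set A0 : ℕ := 2 ^ J * (l + 1) with hA0
  set K1 : ℝ := 2 ^ (((m : ℝ) + 1) * p * l) * (CE1 * 2 ^ ((m : ℝ) * A0 * p)) with hK1
  have hK1pos : 0 < K1 := by positivity
  set KE : ℝ := CE1 * 2 ^ ((m : ℝ) * 2 ^ J * p) with hKE
  have hKE1 : 1 ≤ KE := by
    have : (1 : ℝ) ≤ 2 ^ ((m : ℝ) * 2 ^ J * p) := Real.one_le_rpow (by norm_num) (by positivity)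
    nlinarith
  set C1 : ℝ := max Cη 1 with hC1
  have hC1' : 1 ≤ C1 := le_max_right _ _
  set K2 : ℝ := KE * CS ^ (2 * (J : ℝ)) * C1 ^ p with hK2
  have hK2pos : 0 < K2 := by positivity
  refine ⟨(K1 + K2) ^ (1 / p), by positivity, fun a hla g hg τ hτ hTr R hR1 hRl => ?_⟩
  have hfin : ∀ K : ℝ, 0 ≤ K → K ≤ (K1 + K2) * 2 ^ (α * a * p) → ∀ F : ℝ≥0∞,
      ENNReal.ofReal K * F ≤ (ENNReal.ofReal ((K1 + K2) ^ (1 / p) * 2 ^ (α * a))) ^ p * F := by
    intro K hK0 hK F
    refine mul_le_mul_left ?_ _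
    rw [ENNReal.ofReal_rpow_of_nonneg (by positivity) hp0.le]
    apply ENNReal.ofReal_le_ofReal
    rw [Real.mul_rpow (by positivity) (by positivity), ← Real.rpow_mul (by positivity),
      one_div_mul_cancel hp0.ne', Real.rpow_one, ← Real.rpow_mul (by norm_num)]
    exact hK
  set F := RR m p (fun i => sub m a l (τ i)) (fun κ => FI (g κ)) with hF
  have hEND1 : ∀ b : ℕ, l ≤ b → b ≤ a → ∀ A1 : ℝ, (a : ℝ) - b ≤ A1 →
      AA m p 2 (2 ^ b) (fun i => sub m b l (τ i)) (fF a b g)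
        ≤ ENNReal.ofReal (CE1 * 2 ^ ((m : ℝ) * A1 * p)) * F := by
    intro b hlb hba A1 hA1
    refine (hEND a b l hlb hba g hg τ).trans ?_
    refine mul_le_mul_left (ENNReal.ofReal_le_ofReal ?_) _
    have h1 : (2 : ℝ) ^ ((m : ℝ) * (a - b) * p) ≤ 2 ^ ((m : ℝ) * A1 * p) := by
      apply Real.rpow_le_rpow_of_exponent_le (by norm_num)
      gcongr
    calc CE * 2 ^ ((m : ℝ) * (a - b) * p) ≤ CE1 * 2 ^ ((m : ℝ) * (a - b) * p) := by
          gcongr
          exact le_max_left _ _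
      _ ≤ CE1 * 2 ^ ((m : ℝ) * A1 * p) := by gcongr
  rcases lt_or_ge a A0 with hsmall | hlarge
  · -- small a
    have h1 := hSTA m p C0 hp2 hC0 a l l le_rfl hla g hg τ R hR1 hRl
    have h2 := hEND1 l le_rfl hla A0 (by
      have : (a : ℝ) < A0 := by exact_mod_cast hsmall
      have : (0 : ℝ) ≤ l := Nat.cast_nonneg l
      linarith)
    calc AA m p 2 R (fun i => {τ i}) (fF a l g)
        ≤ ENNReal.ofReal (2 ^ (((m : ℝ) + 1) * p * l)) *
            (ENNReal.ofReal (CE1 * 2 ^ ((m : ℝ) * A0 * p)) * F) := h1.trans (mul_le_mul_right h2 _)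
      _ = ENNReal.ofReal K1 * F := by
          rw [hK1, ENNReal.ofReal_mul (p := 2 ^ (((m : ℝ) + 1) * p * l)) (by positivity)]
          ring
      _ ≤ _ := by
          apply hfin K1 hK1pos.le
          have h3 : (1 : ℝ) ≤ 2 ^ (α * a * p) := Real.one_le_rpow (by norm_num) (by positivity)
          nlinarith
  · -- large a
    set c : ℕ := a / 2 ^ J with hc
    have h2J : 0 < 2 ^ J := by positivity
    have hlc : l + 1 ≤ c := by
      rw [hc, Nat.le_div_iff_mul_le h2J]
      rw [hA0] at hlarge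
      linarith [hlarge, mul_comm (2 ^ J) (l + 1)]
    have hca : c * 2 ^ J ≤ a := Nat.div_mul_le_self a (2 ^ J)
    have hca2 : a < c * 2 ^ J + 2 ^ J := by
      have := Nat.lt_div_mul_add (a := a) h2J
      omega
    set G : ℝ := C1 * 2 ^ (η * a) with hG
    have hG1 : 1 ≤ G := by
      have : (1 : ℝ) ≤ 2 ^ (η * a) := Real.one_le_rpow (by norm_num) (by positivity)
      nlinarith
    have hmain : ∀ k : ℕ, k ≤ J →
        AA m p 2 (2 ^ (c * 2 ^ (J - k))) (fun i => sub m (c * 2 ^ (J - k)) l (τ i))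
            (fF a (c * 2 ^ (J - k)) g)
          ≤ ENNReal.ofReal (KE * CS ^ ((c : ℝ) * (2 ^ J - 2 ^ (J - k)) / l1 + 2 * k) *
              G ^ (p * (1 - (1 - κ) ^ k))) * F := by
      intro k
      induction k with
      | zero =>
        intro _
        have h1 := hEND1 (c * 2 ^ J) (by nlinarith) hca (2 ^ J) (by
          have : (a : ℝ) < c * 2 ^ J + 2 ^ J := by exact_mod_cast hca2
          push_cast
          linarith)
        simpa using h1
      | succ k ih =>
        intro hk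
        have hJk : J - k = (J - (k + 1)) + 1 := by omega
        set b : ℕ := c * 2 ^ (J - (k + 1)) with hb
        have h2b : 2 * b = c * 2 ^ (J - k) := by rw [hb, hJk, pow_succ]; ring
        have hbl : l ≤ b := by
          have : 1 ≤ 2 ^ (J - (k + 1)) := Nat.one_le_two_pow
          nlinarith
        have h2ba : 2 * b ≤ a := by
          rw [h2b]
          calc c * 2 ^ (J - k) ≤ c * 2 ^ J := by
                gcongr
                · norm_num
                · omega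
            _ ≤ a := hca
        have hba : b ≤ a := by omega
        have hst := hSTEP l1 l b a hl1 hl hbl h2ba g hg τ hτ hTr
        have hrr := hRRD m p C0 hp2 hC0 a b l hbl hba _ (hDec (a - b)) g hg τ
        have hrr' : RR m p (fun i => sub m b l (τ i)) (fF a b g) ≤ (ENNReal.ofReal G) ^ p * F := by
          refine hrr.trans (mul_le_mul_left (ENNReal.rpow_le_rpow (ENNReal.ofReal_le_ofReal ?_) hp0.le) _)
          rw [hG]
          have h5 : (2 : ℝ) ^ (η * ((a - b : ℕ) : ℝ)) ≤ 2 ^ (η * a) := by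
            apply Real.rpow_le_rpow_of_exponent_le (by norm_num)
            gcongr
            omega
          calc Cη * 2 ^ (η * ((a - b : ℕ) : ℝ)) ≤ C1 * 2 ^ (η * ((a - b : ℕ) : ℝ)) := by
                gcongr
                exact le_max_left _ _
            _ ≤ C1 * 2 ^ (η * a) := by gcongr
        have hih := ih (by omega)
        rw [← h2b] at hih
        have he0 : 0 ≤ 1 - (1 - κ) ^ k := by
          have := pow_le_one₀ (n := k) (show 0 ≤ 1 - κ by linarith) (by linarith)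
          linarith
        have h2Jk : (2 : ℝ) ^ (J - k) ≤ 2 ^ J := pow_le_pow_right₀ (by norm_num) (by omega)
        have hT0 : 0 ≤ (c : ℝ) * (2 ^ J - 2 ^ (J - k)) / l1 + 2 * k := by
          have : 0 ≤ (2 : ℝ) ^ J - 2 ^ (J - k) := by linarith
          positivity
        have hmain := mult_step hCS hKE1 hG1 hp0 hκ0 hκ1 hT0 he0 hst hrr' hih
        refine hmain.trans (le_of_eq ?_)
        congr 2
        have hE1 : (c : ℝ) * (2 ^ J - 2 ^ (J - k)) / l1 + 2 * k + ((b : ℝ) / l1 + 2)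
            = (c : ℝ) * (2 ^ J - 2 ^ (J - (k + 1))) / l1 + 2 * ((k + 1 : ℕ) : ℝ) := by
          have hb' : (b : ℝ) = c * 2 ^ (J - (k + 1)) := by rw [hb]; push_cast; ring
          have h2' : (2 : ℝ) ^ (J - k) = 2 ^ (J - (k + 1)) * 2 := by rw [hJk, pow_succ]
          rw [hb', h2']
          push_cast
          field_simp
          ring
        have hE2 : (1 - κ) * (1 - (1 - κ) ^ k) + κ = 1 - (1 - κ) ^ (k + 1) := by
          rw [pow_succ]; ring
        rw [hE1, hE2]
    have hJ := hmain J le_rfl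
    simp only [Nat.sub_self, pow_zero, mul_one] at hJ
    have h1 := hSTA m p C0 hp2 hC0 a c l (by omega) (by
      have : c ≤ c * 2 ^ J := Nat.le_mul_of_pos_right _ h2J
      omega) g hg τ R hR1 (hRl.trans (pow_le_pow_right₀ (by norm_num) (by omega)))
    have hcr : (c : ℝ) * 2 ^ J ≤ a := by exact_mod_cast hca
    have hcr2 : (c : ℝ) ≤ a / 2 ^ J := by
      rw [le_div_iff₀ (by positivity)]; exact hcr
    set K3 : ℝ := 2 ^ (((m : ℝ) + 1) * p * c) *
      (KE * CS ^ ((c : ℝ) * (2 ^ J - 1) / l1 + 2 * J) * G ^ (p * (1 - (1 - κ) ^ J))) with hK3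
    have hG0 : 0 < G := by linarith
    calc AA m p 2 R (fun i => {τ i}) (fF a l g)
        ≤ ENNReal.ofReal (2 ^ (((m : ℝ) + 1) * p * c)) *
            (ENNReal.ofReal (KE * CS ^ ((c : ℝ) * (2 ^ J - 1) / l1 + 2 * J) *
              G ^ (p * (1 - (1 - κ) ^ J))) * F) := h1.trans (mul_le_mul_right hJ _)
      _ = ENNReal.ofReal K3 * F := by
          rw [hK3, ENNReal.ofReal_mul (p := 2 ^ (((m : ℝ) + 1) * p * c)) (by positivity)]
          ring
      _ ≤ _ := by
          apply hfin K3 (by positivity)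
          have e1 : (2 : ℝ) ^ (((m : ℝ) + 1) * p * c) ≤ 2 ^ (((m : ℝ) + 1) / 2 ^ J * a * p) := by
            apply Real.rpow_le_rpow_of_exponent_le (by norm_num)
            calc ((m : ℝ) + 1) * p * c ≤ ((m : ℝ) + 1) * p * (a / 2 ^ J) := by gcongr
              _ = ((m : ℝ) + 1) / 2 ^ J * a * p := by ring
          have e2 : CS ^ ((c : ℝ) * (2 ^ J - 1) / l1 + 2 * J) ≤ 2 ^ (ε * a * p) * CS ^ (2 * (J : ℝ)) := by
            rw [Real.rpow_add hCS0]
            refine mul_le_mul_of_nonneg_right ?_ (by positivity)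
            have h3 : (c : ℝ) * (2 ^ J - 1) / l1 ≤ a / l1 := by
              apply div_le_div_of_nonneg_right _ hl1pos.le
              have : (0 : ℝ) ≤ c := Nat.cast_nonneg c
              nlinarith
            calc CS ^ ((c : ℝ) * (2 ^ J - 1) / l1) ≤ CS ^ ((a : ℝ) / l1) :=
                  Real.rpow_le_rpow_of_exponent_le hCS h3
              _ ≤ (2 ^ (ε * p * l1)) ^ ((a : ℝ) / l1) :=
                  Real.rpow_le_rpow hCS0.le hl1C (by positivity)
              _ = 2 ^ (ε * a * p) := by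
                  rw [← Real.rpow_mul (by norm_num)]
                  congr 1
                  field_simp
          have e3 : G ^ (p * (1 - (1 - κ) ^ J)) ≤ C1 ^ p * 2 ^ (η * (1 - (1 - κ) ^ J) * a * p) := by
            have hz : 0 ≤ p * (1 - (1 - κ) ^ J) := mul_nonneg hp0.le (by linarith)
            rw [hG, Real.mul_rpow (by positivity) (by positivity), ← Real.rpow_mul (by norm_num)]
            have h4 : C1 ^ (p * (1 - (1 - κ) ^ J)) ≤ C1 ^ p := by
              apply Real.rpow_le_rpow_of_exponent_le hC1'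
              nlinarith
            have h5 : η * a * (p * (1 - (1 - κ) ^ J)) = η * (1 - (1 - κ) ^ J) * a * p := by ring
            rw [h5]
            gcongr
          have e4 : (2 : ℝ) ^ (α * a * p) = 2 ^ (((m : ℝ) + 1) / 2 ^ J * a * p) * 2 ^ (ε * a * p) *
              2 ^ (η * (1 - (1 - κ) ^ J) * a * p) := by
            rw [← Real.rpow_add (by norm_num), ← Real.rpow_add (by norm_num)]
            congr 1
            rw [hα]; ring
          calc K3 ≤ 2 ^ (((m : ℝ) + 1) / 2 ^ J * a * p) *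
                (KE * (2 ^ (ε * a * p) * CS ^ (2 * (J : ℝ))) *
                  (C1 ^ p * 2 ^ (η * (1 - (1 - κ) ^ J) * a * p))) := by
                rw [hK3]; gcongr
            _ = K2 * 2 ^ (α * a * p) := by rw [e4, hK2]; ring
            _ ≤ (K1 + K2) * 2 ^ (α * a * p) := by
                gcongr
                linarith

end Pool.Agent.H93.BD
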