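import Pool.Agent.H93.BD.Targets2
import Pool.Agent.H96.BD.Grid
import Pool.Agent.H13.BD.SLF
import Pool.Agent.H18.BD.BG

/-!
Module NAR of the board bdc_modules: narrow families (caps near a hyperplane).
-/

set_option autoImplicit false

open MeasureTheory Set
open scoped ENNReal NNReal RealInnerProductSpace

namespace Pool.Agent.H93.BD.NARm

open Pool.Agent.H93.BD

noncomputable def Ph {m : ℕ} (Ψ : X m ≃ᵐ E (m + 1)) : (X m × ℝ) ≃ᵐ X (m + 1) :=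
  (Pool.Agent.H13.BD.sw m).trans (Ψ.prodCongr (MeasurableEquiv.refl ℝ))

lemma Ph_apply {m : ℕ} (Ψ : X m ≃ᵐ E (m + 1)) (z : X m) (s : ℝ) :
    Ph Ψ (z, s) = (Ψ (z.1, s), z.2) := rfl

lemma Ph_mp {m : ℕ} {Ψ : X m ≃ᵐ E (m + 1)} (hΨ : MeasurePreserving Ψ) :
    MeasurePreserving (Ph Ψ) (volume : Measure (X m × ℝ)) volume := by
  have h2 : MeasurePreserving (Ψ.prodCongr (MeasurableEquiv.refl ℝ))
      (volume : Measure (X m × ℝ)) (volume : Measure (E (m + 1) × ℝ)) :=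
    hΨ.prod (MeasurePreserving.id (volume : Measure ℝ))
  exact h2.comp (Pool.Agent.H13.BD.sw_mp m)

section

variable {m : ℕ} {Ψ : X m ≃ᵐ E (m + 1)} (hadd : ∀ x y, Ψ (x + y) = Ψ x + Ψ y)
  (hin : ∀ x y, inner ℝ (Ψ x) (Ψ y) = inner ℝ x.1 y.1 + x.2 * y.2)

include hin in
lemma nsq (x : X m) : ‖Ψ x‖ ^ 2 = ‖x.1‖ ^ 2 + x.2 ^ 2 := by
  have := hin x x
  rw [real_inner_self_eq_norm_sq, real_inner_self_eq_norm_sq] at this
  rw [this]; ring

include hin in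
lemma n1 (x : X m) : ‖x.1‖ ≤ ‖Ψ x‖ :=
  (sq_le_sq₀ (norm_nonneg _) (norm_nonneg _)).1 (by rw [nsq hin]; nlinarith [sq_nonneg x.2])

include hin in
lemma n2 (x : X m) : |x.2| ≤ ‖Ψ x‖ :=
  (sq_le_sq₀ (abs_nonneg _) (norm_nonneg _)).1 (by
    rw [nsq hin, sq_abs]; nlinarith [sq_nonneg ‖x.1‖])

include hin in
lemma n3 (x : X m) : ‖Ψ x‖ ≤ ‖x.1‖ + |x.2| :=
  (sq_le_sq₀ (norm_nonneg _) (by positivity)).1 (by
    rw [nsq hin, ← sq_abs x.2]
    have := mul_nonneg (norm_nonneg x.1) (abs_nonneg x.2)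
    nlinarith)

include hadd in
lemma hsub (x y : X m) : Ψ (x - y) = Ψ x - Ψ y := by
  have := hadd (x - y) y
  rw [sub_add_cancel] at this
  rw [this, add_sub_cancel_right]

include hadd hin in
lemma slice (hSLF : T_SLF) (hΨ : MeasurePreserving Ψ) {ν : E (m + 1)}
    (hν : ∀ x, inner ℝ ν (Ψ x) = x.2) {g : X (m + 1) → ℂ} (hg : Integrable g)
    {A B C3 C' t0 d : ℝ} (hB : 0 ≤ B) (hd1 : d ^ 2 ≤ 1) (ht0 : |t0| ≤ C3)
    (hA' : A * d ≤ C' * d) (hB' : B + B * (2 * C3 + B) ≤ C') (c : E (m + 1))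
    (hs : ∀ z, g z ≠ 0 → ‖z.1 - c‖ ≤ A * d ∧ |inner ℝ ν z.1 - t0| ≤ B * d ^ 2 ∧
      |z.2 - ‖z.1‖ ^ 2| ≤ B * d ^ 2) (s : ℝ) :
    ∃ H : X m → ℂ, InCap C' d (Ψ.symm c).1 H ∧ ∀ (y : E m) (w : ℝ), FI g (Ψ (y, s), w) =
      Complex.exp (((t0 ^ 2 * w : ℝ) : ℂ) * Complex.I) * FI H (y, w) := by
  obtain ⟨G, hG, hGs, hGF⟩ := hSLF m Ψ hΨ hin g hg s
  set v : X m := (0, t0 ^ 2) with hv
  refine ⟨fun z => G (z + v), ⟨hG.comp_add_right v, fun z hz => ?_⟩, fun y w => ?_⟩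
  · obtain ⟨t, ht⟩ := hGs _ hz
    have e1 : (z + v).1 = z.1 := by simp [hv]
    have e2 : (z + v).2 = z.2 + t0 ^ 2 := by simp [hv]
    rw [e1, e2] at ht
    obtain ⟨h1, h2, h3⟩ := hs _ ht
    simp only at h1 h2 h3
    rw [hν] at h2
    simp only at h2
    rw [nsq hin] at h3
    simp only at h3
    constructor
    · have h4 : Ψ (z.1, t) - c = Ψ ((z.1, t) - Ψ.symm c) := by
        rw [hsub hadd, Ψ.apply_symm_apply]
      rw [h4] at h1
      exact ((n1 hin _).trans h1).trans hA'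
    · have hd0 : 0 ≤ d ^ 2 := sq_nonneg d
      have h5 : |t| ≤ C3 + B := by
        have : |t| ≤ |t - t0| + |t0| := by
          have := abs_add_le (t - t0) t0
          simpa using this
        have h6 : B * d ^ 2 ≤ B * 1 := mul_le_mul_of_nonneg_left hd1 hB
        linarith
      have h7 : |t ^ 2 - t0 ^ 2| ≤ (B * d ^ 2) * (2 * C3 + B) := by
        have e : t ^ 2 - t0 ^ 2 = (t - t0) * (t + t0) := by ring
        rw [e, abs_mul]
        refine mul_le_mul h2 ?_ (abs_nonneg _) (by positivity)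
        have := abs_add_le t t0
        linarith
      have h8 : z.2 - ‖z.1‖ ^ 2 = (z.2 + t0 ^ 2 - (‖z.1‖ ^ 2 + t ^ 2)) + (t ^ 2 - t0 ^ 2) := by ring
      rw [h8]
      refine (abs_add_le _ _).trans ?_
      calc _ ≤ B * d ^ 2 + (B * d ^ 2) * (2 * C3 + B) := add_le_add h3 h7
        _ = (B + B * (2 * C3 + B)) * d ^ 2 := by ring
        _ ≤ C' * d ^ 2 := mul_le_mul_of_nonneg_right hB' hd0
  · rw [hGF]
    have h1 : FI G (y, w) = ∫ z : X m, G (z + v) * ph (z + v) (y, w) :=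
      (integral_add_right_eq_self (fun z : X m => G z * ph z (y, w)) v).symm
    rw [h1]
    unfold FI
    rw [← integral_const_mul]
    congr 1
    funext z
    have h2 : ph (z + v) (y, w) = Complex.exp (((t0 ^ 2 * w : ℝ) : ℂ) * Complex.I) *
        ph z (y, w) := by
      unfold ph
      rw [← Complex.exp_add]
      congr 1
      have e1 : (z + v).1 = z.1 := by simp [hv]
      have e2 : (z + v).2 = z.2 + t0 ^ 2 := by simp [hv]
      rw [e1, e2]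
      push_cast
      ring
    rw [h2]
    ring

end

lemma geo_mem {m : ℕ} {Ψ : X m ≃ᵐ E (m + 1)} (hadd : ∀ x y, Ψ (x + y) = Ψ x + Ψ y)
    (hin : ∀ x y, inner ℝ (Ψ x) (Ψ y) = inner ℝ x.1 y.1 + x.2 * y.2) (x0 : E (m + 1)) (R : ℝ)
    (y : E m) (s : ℝ) (h : ‖Ψ (y, s) - x0‖ ≤ R) :
    ‖y - (Ψ.symm x0).1‖ ≤ R ∧ |s - (Ψ.symm x0).2| ≤ R := by
  have h6 : Ψ (y, s) - x0 = Ψ ((y, s) - Ψ.symm x0) := by
    rw [hsub hadd, Ψ.apply_symm_apply]
  rw [h6] at h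
  have h1 := (n1 hin _).trans h
  have h2 := (n2 hin _).trans h
  rw [Prod.fst_sub] at h1
  rw [Prod.snd_sub] at h2
  exact ⟨h1, h2⟩

lemma scale_sum {ι : Type} (T : Finset ι) {P : ℝ} (hP : 2 ≤ P) (c : ℝ≥0∞) (b : ι → ℝ≥0∞) :
    c * (∑ t ∈ T, b t ^ (2 / P)) ^ (P / 2) = (∑ t ∈ T, (c * b t) ^ (2 / P)) ^ (P / 2) := by
  have hP0 : 0 < P := by linarith
  have h1 : ∀ t ∈ T, (c * b t) ^ (2 / P) = c ^ (2 / P) * b t ^ (2 / P) := fun t _ =>
    ENNReal.mul_rpow_of_nonneg _ _ (by positivity)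
  rw [Finset.sum_congr rfl h1, ← Finset.mul_sum, ENNReal.mul_rpow_of_nonneg _ _ (by positivity),
    ← ENNReal.rpow_mul]
  have h2 : 2 / P * (P / 2) = 1 := by field_simp
  rw [h2, ENNReal.rpow_one]

lemma inv_le {N : ℕ} {R a a' : ℝ} (hR : 0 < R) (ha : 0 ≤ a) (ha' : 0 ≤ a') (h : a' ≤ a + R) :
    ((1 + a / R) ^ N)⁻¹ ≤ 2 ^ N * ((1 + a' / R) ^ N)⁻¹ := by
  have h1 : 1 + a' / R ≤ 2 * (1 + a / R) := by
    have : a' / R ≤ (a + R) / R := by gcongr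
    rw [add_div, div_self hR.ne'] at this
    have h0 : 0 ≤ a / R := by positivity
    linarith
  have h2 : (0 : ℝ) < (1 + a' / R) ^ N := by positivity
  have h3 : (0 : ℝ) < (1 + a / R) ^ N := by positivity
  rw [← div_eq_mul_inv, inv_eq_one_div, div_le_div_iff₀ h3 h2, one_mul, ← mul_pow]
  exact pow_le_pow_left₀ (by positivity) h1 N

lemma wt_slice {m : ℕ} {Ψ : X m ≃ᵐ E (m + 1)} (hadd : ∀ x y, Ψ (x + y) = Ψ x + Ψ y)
    (hin : ∀ x y, inner ℝ (Ψ x) (Ψ y) = inner ℝ x.1 y.1 + x.2 * y.2) (N : ℕ) {R : ℝ}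
    (hR : 0 < R) (x0 : X (m + 1)) (s : ℝ) (hs : |s - (Ψ.symm x0.1).2| ≤ R) (z : X m) :
    wt N R (z - ((Ψ.symm x0.1).1, x0.2)) ≤
      ENNReal.ofReal (2 ^ N) * wt N R (Ph Ψ (z, s) - x0) := by
  unfold wt
  rw [← ENNReal.ofReal_mul (by positivity), Ph_apply]
  apply ENNReal.ofReal_le_ofReal
  simp only [Prod.fst_sub, Prod.snd_sub]
  have h1 : Ψ (z.1, s) - x0.1 = Ψ ((z.1, s) - Ψ.symm x0.1) := by
    rw [hsub hadd, Ψ.apply_symm_apply]
  have h2 : ‖Ψ (z.1, s) - x0.1‖ ≤ ‖z.1 - (Ψ.symm x0.1).1‖ + R := by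
    rw [h1]
    refine (n3 hin _).trans ?_
    simp only [Prod.fst_sub, Prod.snd_sub]
    linarith
  have h3 := inv_le (N := N) hR (norm_nonneg _) (norm_nonneg _) h2
  calc _ ≤ (2 ^ N * ((1 + ‖Ψ (z.1, s) - x0.1‖ / R) ^ N)⁻¹) * ((1 + |z.2 - x0.2| / R) ^ N)⁻¹ := by
        gcongr
    _ = _ := by ring

lemma lint_symm {α β : Type} [MeasureSpace α] [MeasureSpace β] [SFinite (volume : Measure α)]
    [SFinite (volume : Measure β)] (F : α × β → ℝ≥0∞) (hF : Measurable F) (A : Set α)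
    (I : Set β) : ∫⁻ q in A ×ˢ I, F q = ∫⁻ s in I, ∫⁻ z in A, F (z, s) := by
  rw [Measure.volume_eq_prod, ← Measure.prod_restrict]
  exact lintegral_prod_symm _ hF.aemeasurable

lemma lint_symm' {α β : Type} [MeasureSpace α] [MeasureSpace β] [SFinite (volume : Measure α)]
    [SFinite (volume : Measure β)] (F : α × β → ℝ≥0∞) (hF : Measurable F) :
    ∫⁻ q, F q = ∫⁻ s, ∫⁻ z, F (z, s) := by
  rw [Measure.volume_eq_prod]
  exact lintegral_prod_symm _ hF.aemeasurable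

lemma final_step {ι : Type} {p : ℝ} (hp : 2 ≤ p) (I : Set ℝ) (T T' : Finset ι) (hT : T ⊆ T')
    {K c : ℝ≥0∞} (hK : K ≠ ⊤) (L : ℝ → ℝ≥0∞) (U : ι → ℝ → ℝ≥0∞) (V : ι → ℝ≥0∞)
    (hU : ∀ β ∈ T, Measurable (U β))
    (h1 : ∀ s, L s ≤ K * (∑ β ∈ T, U β s ^ (2 / p)) ^ (p / 2))
    (h2 : ∀ β ∈ T, ∫⁻ s in I, U β s ≤ c * V β) :
    ∫⁻ s in I, L s ≤ K * c * (∑ β ∈ T', V β ^ (2 / p)) ^ (p / 2) := by
  have hp0 : 0 < p := by linarith
  calc ∫⁻ s in I, L s ≤ ∫⁻ s in I, K * (∑ β ∈ T, U β s ^ (2 / p)) ^ (p / 2) := lintegral_mono h1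
    _ = K * ∫⁻ s in I, (∑ β ∈ T, U β s ^ (2 / p)) ^ (p / 2) := lintegral_const_mul' _ _ hK
    _ ≤ K * (∑ β ∈ T, (∫⁻ s in I, U β s) ^ (2 / p)) ^ (p / 2) :=
        mul_le_mul_right (Pool.Agent.H18.BD.BG.mink2 (volume.restrict I) T U hU hp) _
    _ ≤ K * (∑ β ∈ T, (c * V β) ^ (2 / p)) ^ (p / 2) :=
        mul_le_mul_right (ENNReal.rpow_le_rpow (Finset.sum_le_sum fun β hβ =>
          ENNReal.rpow_le_rpow (h2 β hβ) (by positivity)) (by positivity)) _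
    _ = K * c * (∑ β ∈ T, V β ^ (2 / p)) ^ (p / 2) := by
        rw [← scale_sum T hp, ← mul_assoc]
    _ ≤ _ := mul_le_mul_right (ENNReal.rpow_le_rpow (Finset.sum_le_sum_of_subset hT)
          (by positivity)) _

theorem pf_NAR (hSLC : T_SLC) (hSLF : T_SLF) (hGRD : T_GRD) (hFCT : T_FCT) (hSUB : T_SUB) :
    T_NAR := by
  classical
  intro m p hp hLoc ε hε C1 C3 N
  have hp0 : 0 < p := by linarith
  set D1 : ℝ := |C1| with hD1
  set D3 : ℝ := |C3| with hD3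
  have hD10 : 0 ≤ D1 := abs_nonneg _
  have hD30 : 0 ≤ D3 := abs_nonneg _
  set A : ℝ := D1 + m + 2 with hA
  set B : ℝ := D1 + D3 with hB
  have hA0 : 0 ≤ A := by positivity
  have hB0 : 0 ≤ B := by positivity
  set C' : ℝ := A + (B + B * (2 * D3 + B)) with hC'
  obtain ⟨M, hM⟩ := hGRD (m + 1) (m + 3 + D3)
  obtain ⟨C, hC, hL⟩ := hLoc ε hε C' (m + 2) N M
  set E2 : ℝ := (2 ^ N : ℝ) ^ (1 / p) with hE2
  have hE2p : 0 < E2 := by positivity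
  refine ⟨C * E2, by positivity, ?_⟩
  intro b ν t0 hν ht0 S G hS hG x0
  obtain ⟨Ψ, hΨ, hadd, -, hin, hνΨ⟩ := hSLC m ν hν
  have h4b : (0 : ℝ) < 4 ^ b := by positivity
  set d : ℝ := 1 / 2 ^ b with hd
  have hd0 : 0 < d := by positivity
  have hdd : (1 : ℝ) / 4 ^ b = d ^ 2 := by
    rw [hd, div_pow, one_pow, ← pow_mul, mul_comm b 2, pow_mul]; norm_num
  have hd1 : d ≤ 1 := by
    rw [hd, div_le_one (by positivity)]
    exact one_le_pow₀ (by norm_num)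
  have hd21 : d ^ 2 ≤ 1 := pow_le_one₀ hd0.le hd1
  have hd2d : d ^ 2 ≤ d := by nlinarith
  have hcast : (((m + 1 : ℕ) : ℝ) + 1) = m + 2 := by push_cast; ring
  have ht0' : |t0| ≤ D3 := ht0.trans (le_abs_self _)
  -- the pieces
  set Sb : (Fin (m + 1) → ℤ) → Finset (Fin (m + 1) → ℤ) :=
    fun β => S ∩ sub (m + 1) (2 * b) b β with hSb
  set h : (Fin (m + 1) → ℤ) → X (m + 1) → ℂ := fun β z => ∑ α ∈ Sb β, G α z with hh
  have hGi : ∀ α ∈ S, Integrable (G α) := fun α hα => (hG α hα).1.int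
  have hhi : ∀ β, Integrable (h β) := fun β =>
    integrable_finsetSum _ fun α hα => hGi α (Finset.mem_inter.1 hα).1
  have hFh : ∀ β x, ∑ α ∈ Sb β, FI (G α) x = FI (h β) x := fun β x =>
    (Pool.Agent.H96.BD.FI_sum _ _ (fun α hα => hGi α (Finset.mem_inter.1 hα).1) x).symm
  have hsum : ∀ x, ∑ α ∈ S, FI (G α) x = ∑ β ∈ Bx (m + 1) b, FI (h β) x := by
    intro x
    have h1 := (hSUB (m + 1) (2 * b) b b le_rfl (by omega)).2.2.1 ℂ
      (fun κ => if κ ∈ S then FI (G κ) x else 0)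
    simp only [Finset.sum_ite_mem] at h1
    rw [Finset.inter_eq_right.2 hS] at h1
    rw [h1]
    refine Finset.sum_congr rfl fun β _ => ?_
    rw [← hFh, hSb, Finset.inter_comm]
  have hdist : ∀ β, ∀ α ∈ sub (m + 1) (2 * b) b β, ‖pt (2 * b) α - pt b β‖ ≤ (m + 2) * d := by
    intro β α hα
    have h1 := ((hSUB (m + 1) (2 * b) (2 * b) b (by omega) le_rfl).2.2.2.2.1 β α hα).2.2
    rw [hcast] at h1
    rw [hd, mul_one_div]
    exact h1
  have hnu : ∀ y : E (m + 1), |inner ℝ ν y| ≤ ‖y‖ := fun y => by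
    have := abs_real_inner_le_norm ν y
    rwa [hν, one_mul] at this
  have hC3 : C3 / 4 ^ b ≤ D3 * d ^ 2 := by
    rw [div_eq_mul_one_div, hdd]
    exact mul_le_mul_of_nonneg_right (le_abs_self _) (sq_nonneg _)
  have hsupp : ∀ β z, h β z ≠ 0 → ‖z.1 - pt b β‖ ≤ A * d ∧ |inner ℝ ν z.1 - t0| ≤ B * d ^ 2 ∧
      |z.2 - ‖z.1‖ ^ 2| ≤ B * d ^ 2 := by
    intro β z hz
    obtain ⟨α, hα, hne⟩ := Finset.exists_ne_zero_of_sum_ne_zero hz
    obtain ⟨hαS, hαs⟩ := Finset.mem_inter.1 hα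
    obtain ⟨h1, h2⟩ := (hG α hαS).1.supp z hne
    rw [hdd] at h1 h2
    have h1' : ‖z.1 - pt (2 * b) α‖ ≤ D1 * d ^ 2 :=
      h1.trans (mul_le_mul_of_nonneg_right (le_abs_self _) (sq_nonneg _))
    have h3 := hdist β α hαs
    have h4 := ((hG α hαS).2).trans hC3
    refine ⟨?_, ?_, ?_⟩
    · calc ‖z.1 - pt b β‖ = ‖(z.1 - pt (2 * b) α) + (pt (2 * b) α - pt b β)‖ := by
            congr 1; abel
        _ ≤ D1 * d ^ 2 + (m + 2) * d := (norm_add_le _ _).trans (add_le_add h1' h3)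
        _ ≤ D1 * d + (m + 2) * d := by gcongr
        _ = A * d := by rw [hA]; ring
    · have h5 : inner ℝ ν z.1 - t0 = inner ℝ ν (z.1 - pt (2 * b) α) +
          (inner ℝ ν (pt (2 * b) α) - t0) := by rw [inner_sub_right]; ring
      rw [h5]
      calc _ ≤ |inner ℝ ν (z.1 - pt (2 * b) α)| + |inner ℝ ν (pt (2 * b) α) - t0| :=
            abs_add_le _ _
        _ ≤ D1 * d ^ 2 + D3 * d ^ 2 := add_le_add ((hnu _).trans h1') h4
        _ = _ := by rw [hB]; ring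
    · calc _ ≤ C1 * (d ^ 2) ^ 2 := h2
        _ ≤ D1 * (d ^ 2) ^ 2 := mul_le_mul_of_nonneg_right (le_abs_self _) (sq_nonneg _)
        _ ≤ D1 * d ^ 2 := by
            apply mul_le_mul_of_nonneg_left _ hD10
            nlinarith [sq_nonneg d]
        _ ≤ B * d ^ 2 := by rw [hB]; nlinarith [sq_nonneg d]
  -- the family
  set T := (Bx (m + 1) b).filter (fun β => (Sb β).Nonempty) with hT
  have hTsum : ∀ x, ∑ β ∈ Bx (m + 1) b, FI (h β) x = ∑ β ∈ T, FI (h β) x := by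
    intro x
    rw [hT]
    refine (Finset.sum_filter_of_ne fun β _ hne => ?_).symm
    rw [← hFh] at hne
    exact Finset.nonempty_of_sum_ne_zero hne
  set cc : (Fin (m + 1) → ℤ) → E m := fun β => (Ψ.symm (pt b β)).1 with hcc
  have hcc1 : ∀ β ∈ T, ‖cc β‖ ≤ m + 2 := by
    intro β hβ
    have h1 := n1 hin (Ψ.symm (pt b β))
    rw [Ψ.apply_symm_apply] at h1
    have h2 := (hSUB (m + 1) b b b le_rfl le_rfl).2.2.2.2.2 β (Finset.mem_filter.1 hβ).1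
    rw [hcast] at h2
    exact h1.trans h2
  have hov : ∀ ξ : E m, ∀ T' ⊆ T, (∀ β ∈ T', ‖ξ - cc β‖ ≤ 1 / 2 ^ b) → T'.card ≤ M := by
    intro ξ T' hT' hξ
    refine hM b (Ψ (ξ, t0)) T' fun β hβ => ?_
    obtain ⟨α, hα⟩ := (Finset.mem_filter.1 (hT' hβ)).2
    obtain ⟨hαS, hαs⟩ := Finset.mem_inter.1 hα
    have h3 := hdist β α hαs
    have h4 := ((hG α hαS).2).trans hC3
    have h5 : (Ψ.symm (pt b β)).2 = inner ℝ ν (pt b β) := by
      rw [← hνΨ, Ψ.apply_symm_apply]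
    have h6 : Ψ (ξ, t0) - pt b β = Ψ ((ξ, t0) - Ψ.symm (pt b β)) := by
      rw [hsub hadd, Ψ.apply_symm_apply]
    rw [h6]
    refine (n3 hin _).trans ?_
    simp only [Prod.fst_sub, Prod.snd_sub, h5]
    have h7 : t0 - inner ℝ ν (pt b β) = -(inner ℝ ν (pt (2 * b) α) - t0) +
        inner ℝ ν (pt (2 * b) α - pt b β) := by rw [inner_sub_right]; ring
    have h8 : |t0 - inner ℝ ν (pt b β)| ≤ D3 * d ^ 2 + (m + 2) * d := by
      rw [h7]
      refine (abs_add_le _ _).trans ?_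
      rw [abs_neg]
      exact add_le_add h4 ((hnu _).trans h3)
    have h9 : D3 * d ^ 2 ≤ D3 * d := by gcongr
    have h10 := hξ β hβ
    rw [← hd] at h10
    calc _ ≤ d + (D3 * d + (m + 2) * d) := add_le_add h10 (by linarith)
      _ = (m + 3 + D3) / 2 ^ b := by
        rw [div_eq_mul_one_div ((m : ℝ) + 3 + D3), ← hd]; ring
  have hAC : A * d ≤ C' * d := by
    apply mul_le_mul_of_nonneg_right _ hd0.le
    rw [hC']
    have : 0 ≤ B + B * (2 * D3 + B) := by positivity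
    linarith
  have hBC : B + B * (2 * D3 + B) ≤ C' := by rw [hC']; linarith
  have hsl := fun (s : ℝ) (β : Fin (m + 1) → ℤ) => slice hadd hin hSLF hΨ hνΨ (hhi β) hB0 hd21 ht0' hAC hBC
    (pt b β) (hsupp β) s
  choose H hH hHF using hsl
  -- fixed `s`
  set z0 : X m := ((Ψ.symm x0.1).1, x0.2) with hz0
  set s0 : ℝ := (Ψ.symm x0.1).2 with hs0
  set Reg : Set (X m) := {z : X m | ‖z.1 - z0.1‖ ≤ 4 ^ b ∧ |z.2 - z0.2| ≤ 4 ^ b} with hReg
  set I : Set ℝ := {s : ℝ | |s - s0| ≤ 4 ^ b} with hI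
  set K : ℝ≥0∞ := ENNReal.ofReal (C * 2 ^ (ε * b)) with hK
  have hone : ∀ (s β) (z : X m), ‖FI (H s β) z‖ₑ = ‖FI (h β) (Ph Ψ (z, s))‖ₑ := by
    intro s β z
    rw [Ph_apply, hHF s β z.1 z.2, enorm_mul]
    have : ‖Complex.exp (((t0 ^ 2 * z.2 : ℝ) : ℂ) * Complex.I)‖ₑ = 1 := by
      rw [← ofReal_norm_eq_enorm, Complex.norm_exp_ofReal_mul_I, ENNReal.ofReal_one]
    rw [this, one_mul]
  have hall : ∀ (s) (z : X m), ‖∑ β ∈ T, FI (H s β) z‖ₑ =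
      ‖∑ β ∈ T, FI (h β) (Ph Ψ (z, s))‖ₑ := by
    intro s z
    have h1 : ∑ β ∈ T, FI (h β) (Ph Ψ (z, s)) =
        Complex.exp (((t0 ^ 2 * z.2 : ℝ) : ℂ) * Complex.I) * ∑ β ∈ T, FI (H s β) z := by
      rw [Finset.mul_sum]
      exact Finset.sum_congr rfl fun β _ => hHF s β z.1 z.2
    rw [h1, enorm_mul]
    have : ‖Complex.exp (((t0 ^ 2 * z.2 : ℝ) : ℂ) * Complex.I)‖ₑ = 1 := by
      rw [← ofReal_norm_eq_enorm, Complex.norm_exp_ofReal_mul_I, ENNReal.ofReal_one]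
    rw [this, one_mul]
  have hfix : ∀ s : ℝ, ∫⁻ z in Reg, ‖∑ β ∈ T, FI (h β) (Ph Ψ (z, s))‖ₑ ^ p ≤
      K ^ p * (∑ β ∈ T, (∫⁻ z : X m, ‖FI (h β) (Ph Ψ (z, s))‖ₑ ^ p *
        wt N (4 ^ b) (z - z0)) ^ (2 / p)) ^ (p / 2) := by
    intro s
    have h1 := hL b (Fin (m + 1) → ℤ) T cc (H s) hcc1 (fun β _ => hH s β) hov z0
    simp only [hone, hall] at h1
    exact h1
  -- measurability
  have hcont : ∀ β, Continuous (FI (h β)) := fun β => (hFCT (m + 1) (h β) (hhi β)).1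
  have hFm : Measurable fun x : X (m + 1) => ‖∑ β ∈ T, FI (h β) x‖ₑ ^ p := by
    refine Measurable.pow_const (Measurable.enorm ?_) _
    exact Finset.measurable_fun_sum T fun β _ => (hcont β).measurable
  have hwm : ∀ (n : ℕ) (x1 : X n), Measurable fun x : X n => wt N (4 ^ b) (x - x1) := by
    intro n x1
    unfold wt
    refine ENNReal.measurable_ofReal.comp ?_
    have h1 : Measurable fun x : X n => (1 + ‖(x - x1).1‖ / 4 ^ b) ^ N := by fun_prop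
    have h2 : Measurable fun x : X n => (1 + |(x - x1).2| / 4 ^ b) ^ N := by fun_prop
    exact h1.inv.mul h2.inv
  have hUm : ∀ β ∈ T, Measurable fun s : ℝ => ∫⁻ z : X m, ‖FI (h β) (Ph Ψ (z, s))‖ₑ ^ p *
        wt N (4 ^ b) (z - z0) := by
    intro β _
    have h1 : Measurable fun q : X m × ℝ => ‖FI (h β) (Ph Ψ (q.1, q.2))‖ₑ ^ p *
        wt N (4 ^ b) (q.1 - z0) := by
      refine Measurable.mul ?_ ((hwm m z0).comp measurable_fst)
      exact (((hcont β).measurable.comp (Ph Ψ).measurable).enorm.pow_const p)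
    exact h1.lintegral_prod_left'
  -- the left side
  have hLHS : ∫⁻ x in {x : X (m + 1) | ‖x.1 - x0.1‖ ≤ 4 ^ b ∧ |x.2 - x0.2| ≤ 4 ^ b},
      ‖∑ β ∈ T, FI (h β) x‖ₑ ^ p ≤
      ∫⁻ s in I, ∫⁻ z in Reg, ‖∑ β ∈ T, FI (h β) (Ph Ψ (z, s))‖ₑ ^ p := by
    rw [← (Ph_mp hΨ).setLIntegral_comp_preimage_emb (Ph Ψ).measurableEmbedding]
    have h1 : Ph Ψ ⁻¹' {x : X (m + 1) | ‖x.1 - x0.1‖ ≤ 4 ^ b ∧ |x.2 - x0.2| ≤ 4 ^ b} ⊆
        Reg ×ˢ I := by
      rintro ⟨z, s⟩ ⟨hz1, hz2⟩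
      rw [Ph_apply] at hz1 hz2
      simp only at hz1 hz2
      obtain ⟨a1, a2⟩ := geo_mem hadd hin x0.1 (4 ^ b) z.1 s hz1
      exact ⟨⟨a1, hz2⟩, a2⟩
    refine (lintegral_mono_set h1).trans (le_of_eq ?_)
    exact lint_symm (fun q : X m × ℝ => ‖∑ β ∈ T, FI (h β) (Ph Ψ q)‖ₑ ^ p)
      (hFm.comp (Ph Ψ).measurable) Reg I
  have hIm : MeasurableSet I := measurableSet_le (by fun_prop) measurable_const
  -- the right side
  have hRHS : ∀ β ∈ T, ∫⁻ s in I, ∫⁻ z : X m, ‖FI (h β) (Ph Ψ (z, s))‖ₑ ^ p *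
      wt N (4 ^ b) (z - z0) ≤ ENNReal.ofReal (2 ^ N) *
        ∫⁻ x, ‖∑ α ∈ S ∩ sub (m + 1) (2 * b) b β, FI (G α) x‖ₑ ^ p * wt N (4 ^ b) (x - x0) := by
    intro β _
    have h1 : ∀ x, ‖∑ α ∈ S ∩ sub (m + 1) (2 * b) b β, FI (G α) x‖ₑ ^ p *
        wt N (4 ^ b) (x - x0) = ‖FI (h β) x‖ₑ ^ p * wt N (4 ^ b) (x - x0) := fun x => by
      rw [← hFh]
    rw [lintegral_congr h1]
    have hm1 : Measurable fun x : X (m + 1) => ‖FI (h β) x‖ₑ ^ p * wt N (4 ^ b) (x - x0) :=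
      ((hcont β).measurable.enorm.pow_const p).mul (hwm (m + 1) x0)
    rw [← (Ph_mp hΨ).lintegral_comp_emb (Ph Ψ).measurableEmbedding,
      lint_symm' (fun q : X m × ℝ => ‖FI (h β) (Ph Ψ q)‖ₑ ^ p * wt N (4 ^ b) (Ph Ψ q - x0))
        (hm1.comp (Ph Ψ).measurable),
      ← lintegral_const_mul' _ _ ENNReal.ofReal_ne_top]
    refine le_trans ?_ (setLIntegral_le_lintegral I _)
    refine setLIntegral_mono' hIm fun s hs => ?_
    rw [← lintegral_const_mul' _ _ ENNReal.ofReal_ne_top]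
    refine lintegral_mono fun z => ?_
    have h4 := wt_slice hadd hin N h4b x0 s hs z
    calc _ ≤ ‖FI (h β) (Ph Ψ (z, s))‖ₑ ^ p * (ENNReal.ofReal (2 ^ N) *
          wt N (4 ^ b) (Ph Ψ (z, s) - x0)) := mul_le_mul_right h4 _
      _ = _ := by ring
  -- conclusion
  have hK2 : K ^ p * ENNReal.ofReal (2 ^ N) = ENNReal.ofReal (C * E2 * 2 ^ (ε * b)) ^ p := by
    have e1 : C * E2 * 2 ^ (ε * b) = C * 2 ^ (ε * b) * E2 := by ring
    rw [e1, ENNReal.ofReal_mul (by positivity), ENNReal.mul_rpow_of_nonneg _ _ hp0.le, ← hK,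
      ENNReal.ofReal_rpow_of_nonneg hE2p.le hp0.le, hE2, ← Real.rpow_mul (by positivity),
      one_div, inv_mul_cancel₀ hp0.ne', Real.rpow_one]
  have hKt : K ^ p ≠ ⊤ := ENNReal.rpow_ne_top_of_nonneg hp0.le ENNReal.ofReal_ne_top
  have hfin := final_step hp I T (Bx (m + 1) b) (Finset.filter_subset _ _) hKt _ _ _ hUm hfix hRHS
  rw [hK2] at hfin
  simp only [hsum, hTsum]
  exact hLHS.trans hfin

end Pool.Agent.H93.BD.NARm
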