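import Pool.Agent.H93.BD.Targets
import Pool.Agent.H93.BD.Targets2
import Pool.Agent.H93.BD.Mono

open MeasureTheory
open scoped ENNReal NNReal

namespace Pool.Agent.H93.BD

theorem fF_cont (hFCT : T_FCT) {m a b : ℕ} {C0 : ℝ} {g : (Fin m → ℤ) → X m → ℂ}
    (hg : Cls m C0 a g) (α : Fin m → ℤ) : Continuous (fF a b g α) := by
  unfold fF
  refine continuous_finsetSum _ fun κ hκ => ?_
  exact (hFCT m (g κ) (hg κ (Finset.mem_filter.mp hκ).1).int).1

theorem fF_bdd (hFCT : T_FCT) {m a b : ℕ} {C0 : ℝ} {g : (Fin m → ℤ) → X m → ℂ}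
    (hg : Cls m C0 a g) (α : Fin m → ℤ) : ∃ B : ℝ, ∀ x, ‖fF a b g α x‖ ≤ B := by
  refine ⟨∑ κ ∈ sub m a b α, ∫ z, ‖g κ z‖, fun x => ?_⟩
  unfold fF
  refine (norm_sum_le _ _).trans (Finset.sum_le_sum fun κ hκ => ?_)
  exact (hFCT m (g κ) (hg κ (Finset.mem_filter.mp hκ).1).int).2 x

theorem pf_STEP (hHO1 : T_HO1) (hBIN : T_BIN) (hHO2 : T_HO2) (hORA : T_ORA) (hTRL : T_TRL)
    (hRPP : T_RPP) (hSUB : T_SUB) (hCAP : T_CAP) (hFCT : T_FCT) : T_STEP := by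
  intro m hm p q κ h2q hqp hκ0 hκ1 hqκ hpq C0 Λ hC0
  have hp2 : 2 ≤ p := h2q.trans hqp
  have hp0 : 0 < p := by linarith
  obtain ⟨CH, hHO1⟩ := hHO1 m p q hp0 h2q
  obtain ⟨CR, hRPP⟩ := hRPP m q (by linarith) (C0 + m + 1)
  obtain ⟨CB, hCB1, hBIN⟩ := hBIN m hm p q hp0 h2q hpq ((m : ℝ) + 1) Λ CR
  obtain ⟨CO, hORA⟩ := hORA m p C0 hp2 hC0
  obtain ⟨CT, hTRL⟩ := hTRL m p hp2
  set K0 : ℝ := max CH 1 * (max CO 1 * max CT 1) with hK0
  have hCH1 : 1 ≤ max CH 1 := le_max_right _ _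
  have hCO1 : 1 ≤ max CO 1 := le_max_right _ _
  have hCT1 : 1 ≤ max CT 1 := le_max_right _ _
  have hK01 : 1 ≤ K0 := one_le_mul_of_one_le_of_one_le hCH1 (one_le_mul_of_one_le_of_one_le hCO1 hCT1)
  have hCB0 : 0 < CB := by linarith
  have hK0pos : 0 < K0 := by linarith
  refine ⟨CB * K0, one_le_mul_of_one_le_of_one_le hCB1 hK01, ?_⟩
  intro l1 l b a hl1 hl hlb h2ba g hg τ hτ hTr
  have hba : b ≤ a := by omega
  have hl1pos : (0 : ℝ) < l1 := by exact_mod_cast hl1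
  have hcont : ∀ c : ℕ, ∀ α, Continuous (fF a c g α) := fun c α => fF_cont hFCT hg α
  obtain ⟨-, -, -, -, hS5, hS6⟩ := hSUB m a b l hlb hba
  obtain ⟨-, -, -, -, -, hS6'⟩ := hSUB m a l l le_rfl (by omega)
  -- first Hoelder
  have h1 := hHO1 (2 ^ b) (by positivity) (fun i => sub m b l (τ i)) (fF a b g)
    (fun i α _ => hcont b α)
  -- ball inflation
  have hL : (2 : ℝ) ≤ 2 ^ l1 := by
    calc (2 : ℝ) = 2 ^ 1 := by norm_num
      _ ≤ 2 ^ l1 := pow_le_pow_right₀ (by norm_num) hl1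
  have hdist : ((m : ℝ) + 1) / 2 ^ l ≤ 1 / 2 ^ l1 := by
    rw [div_le_div_iff₀ (by positivity) (by positivity), one_mul]
    have e1 : ((m : ℝ) + 1) ≤ 2 ^ (m + 1) := by
      have : m + 1 < 2 ^ (m + 1) := Nat.lt_two_pow_self
      exact_mod_cast this.le
    calc ((m : ℝ) + 1) * 2 ^ l1 ≤ 2 ^ (m + 1) * 2 ^ l1 := by gcongr
      _ = 2 ^ (l1 + m + 1) := by rw [← pow_add]; congr 1; ring
      _ ≤ 2 ^ l := pow_le_pow_right₀ (by norm_num) hl
  have h2 := hBIN (2 ^ b) (2 ^ l1) (one_le_pow₀ (by norm_num)) hL (fun i => pt l (τ i))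
    (fun i => hS6' (τ i) (hτ i)) hTr (fun i => sub m b l (τ i)) (fun α => pt b α)
    (fun i α hα => ⟨hS6 α (hS5 (τ i) α hα).1, ((hS5 (τ i) α hα).2.2).trans hdist⟩)
    (fF a b g) (hcont b) (fun α => fF_bdd hFCT hg α)
    (fun i α hα x => by
      obtain ⟨G, hG, hGx⟩ := hCAP m C0 hC0 a b hba g hg α (hS5 (τ i) α hα).1
      have := hRPP (2 ^ b) (one_le_pow₀ (by norm_num)) (pt b α) G hG x
      have hfun : fF a b g α = FI G := funext hGx
      rw [hfun]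
      exact this)
  have hsq : ((2 : ℝ) ^ b) ^ 2 = 2 ^ (2 * b) := by rw [← pow_mul, mul_comm]
  have hlog : Real.log ((2 : ℝ) ^ b) / Real.log ((2 : ℝ) ^ l1) = (b : ℝ) / l1 := by
    rw [Real.log_pow, Real.log_pow]
    have : Real.log 2 ≠ 0 := (Real.log_pos (by norm_num)).ne'
    field_simp
  rw [hsq, hlog] at h2
  -- interpolation
  have h3 := hHO2 m p q κ h2q hqp hκ0 hκ1 hqκ (2 ^ (2 * b)) (by positivity)
    (fun i => sub m b l (τ i)) (fF a b g) (fun i α _ => hcont b α)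
  have h4 := hORA a b l hlb h2ba g hg τ
  have h5 := hTRL (2 ^ (2 * b)) (by positivity) (fun i => sub m b l (τ i)) (fF a b g)
    (fun i α _ => hcont b α)
  set Y := AA m p 2 (2 ^ (2 * b)) (fun i => sub m (2 * b) l (τ i)) (fF a (2 * b) g) with hY
  set Rr := RR m p (fun i => sub m b l (τ i)) (fF a b g) with hRr
  have hpow : ∀ (c : ℝ), 1 ≤ c → ∀ e : ℝ, 0 ≤ e → e ≤ 1 → (ENNReal.ofReal c) ^ e ≤ ENNReal.ofReal c := by
    intro c hc e he0 he1
    rw [ENNReal.ofReal_rpow_of_nonneg (by linarith) he0]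
    apply ENNReal.ofReal_le_ofReal
    calc c ^ e ≤ c ^ (1 : ℝ) := Real.rpow_le_rpow_of_exponent_le hc he1
      _ = c := Real.rpow_one c
  have h4' : (AA m p 2 (2 ^ (2 * b)) (fun i => sub m b l (τ i)) (fF a b g)) ^ (1 - κ)
      ≤ ENNReal.ofReal (max CO 1) * Y ^ (1 - κ) := by
    refine (ENNReal.rpow_le_rpow h4 (by linarith)).trans ?_
    rw [ENNReal.mul_rpow_of_nonneg _ _ (by linarith)]
    refine mul_le_mul_left ?_ _
    refine (ENNReal.rpow_le_rpow (ENNReal.ofReal_le_ofReal (le_max_left CO 1)) (by linarith)).trans ?_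
    exact hpow _ hCO1 _ (by linarith) (by linarith)
  have h5' : (AA m p p (2 ^ (2 * b)) (fun i => sub m b l (τ i)) (fF a b g)) ^ κ
      ≤ ENNReal.ofReal (max CT 1) * Rr ^ κ := by
    refine (ENNReal.rpow_le_rpow h5 hκ0).trans ?_
    rw [ENNReal.mul_rpow_of_nonneg _ _ hκ0]
    refine mul_le_mul_left ?_ _
    refine (ENNReal.rpow_le_rpow (ENNReal.ofReal_le_ofReal (le_max_left CT 1)) hκ0).trans ?_
    exact hpow _ hCT1 _ hκ0 hκ1
  have hE : (1 : ℝ) ≤ (b : ℝ) / l1 + 2 := by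
    have : (0 : ℝ) ≤ (b : ℝ) / l1 := by positivity
    linarith
  calc AA m p 2 (2 ^ b) (fun i => sub m b l (τ i)) (fF a b g)
      ≤ ENNReal.ofReal CH * AA m p q (2 ^ b) (fun i => sub m b l (τ i)) (fF a b g) := h1
    _ ≤ ENNReal.ofReal (max CH 1) * (ENNReal.ofReal (CB ^ ((b : ℝ) / l1 + 2)) *
          ((ENNReal.ofReal (max CO 1) * Y ^ (1 - κ)) * (ENNReal.ofReal (max CT 1) * Rr ^ κ))) := by
        refine mul_le_mul' (ENNReal.ofReal_le_ofReal (le_max_left _ _)) ?_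
        refine h2.trans (mul_le_mul_right ?_ _)
        exact h3.trans (mul_le_mul' h4' h5')
    _ = (ENNReal.ofReal (max CH 1) * (ENNReal.ofReal (max CO 1) * ENNReal.ofReal (max CT 1)) *
          ENNReal.ofReal (CB ^ ((b : ℝ) / l1 + 2))) * Y ^ (1 - κ) * Rr ^ κ := by ring
    _ ≤ ENNReal.ofReal ((CB * K0) ^ ((b : ℝ) / l1 + 2)) * Y ^ (1 - κ) * Rr ^ κ := by
        refine mul_le_mul_left (mul_le_mul_left ?_ _) _
        rw [← ENNReal.ofReal_mul (by positivity), ← ENNReal.ofReal_mul (by positivity),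
          ← ENNReal.ofReal_mul (by positivity), ← hK0]
        apply ENNReal.ofReal_le_ofReal
        rw [Real.mul_rpow hCB0.le hK0pos.le]
        have e2 : K0 ≤ K0 ^ ((b : ℝ) / l1 + 2) := by
          calc K0 = K0 ^ (1 : ℝ) := (Real.rpow_one _).symm
            _ ≤ K0 ^ ((b : ℝ) / l1 + 2) := Real.rpow_le_rpow_of_exponent_le hK01 hE
        have e3 : 0 < CB ^ ((b : ℝ) / l1 + 2) := by positivity
        nlinarith

end Pool.Agent.H93.BD
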