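import Pool.Agent.H91.BD.AKW
import Pool.Agent.H91.BD.WC
import Pool.Agent.H91.BD.WM
import Pool.Agent.H91.BD.WP
import Pool.Agent.H96.BD.LW
import Pool.Agent.H96.BD.HO1
import Pool.Agent.H96.BD.Abase
import Pool.Agent.H96.BD.Grid
import Pool.Agent.H96.BD.TRV
import Pool.Agent.H18.BD.BG
import Pool.Agent.H18.BD.DIC
import Pool.Agent.H18.BD.GNB
import Pool.Agent.H18.BD.RES
import Pool.Agent.H89.BD.BGL
import Pool.Agent.H89.BD.KUU
import Pool.Agent.H51.BD.BIN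
import Pool.Agent.H60.BD.BMP
import Pool.Agent.H60.BD.ETA
import Pool.Agent.H60.BD.ETR
import Pool.Agent.H60.BD.IFC
import Pool.Agent.H33.BD.BMR
import Pool.Agent.H84.BD.CVA
import Pool.Agent.H84.BD.JEN
import Pool.Agent.H84.BD.M0
import Pool.Agent.H84.BD.ORA
import Pool.Agent.H84.BD.TRA
import Pool.Agent.H93.BD.EXP
import Pool.Agent.H93.BD.FIN
import Pool.Agent.H93.BD.MAIN
import Pool.Agent.H93.BD.MULT
import Pool.Agent.H93.BD.STEP
import Pool.Agent.H69.BD.HO2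
import Pool.Agent.H37.BD.ORX
import Pool.Agent.H37.BD.UA
import Pool.Agent.H13.BD.PLN
import Pool.Agent.H13.BD.SLC
import Pool.Agent.H13.BD.SLF
import Pool.Agent.H95.BD.REP
import Pool.Agent.H1.BD.RPB
import Pool.Agent.H65.BD.WT
import Pool.Agent.H95.BD.ORT
import Pool.Agent.H68.BD.GNA
import Pool.Agent.H93.BD.NAR

/-!
Decoupling for the paraboloid in all dimensions (board bdc_modules): assembly.
-/

set_option autoImplicit false

namespace Pool.Agent.H93.BD.All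

open Pool.Agent.H93.BD

theorem bmp : T_BMP := Pool.Agent.H60.BD.pf_BMP
theorem bmr : T_BMR := Pool.Agent.H33.BD.pf_BMR
theorem eta : T_ETA := Pool.Agent.H60.BD.pf_ETA
theorem etr : T_ETR := Pool.Agent.H60.BD.pf_ETR
theorem fct : T_FCT := Pool.Agent.H96.BD.pf_FCT
theorem cap : T_CAP := Pool.Agent.H96.BD.pf_CAP
theorem sub' : T_SUB := Pool.Agent.H96.BD.pf_SUB
theorem grd : T_GRD := Pool.Agent.H96.BD.pf_GRD
theorem wm : T_WM := Pool.Agent.H91.BD.pf_WM
theorem wc : T_WC := Pool.Agent.H91.BD.pf_WC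
theorem wp : T_WP := Pool.Agent.H91.BD.pf_WP wm
theorem wt' : T_WT := Pool.Agent.H65.BD.pf_WT
theorem cva : T_CVA := Pool.Agent.H84.BD.pf_CVA
theorem jen : T_JEN := Pool.Agent.H84.BD.pf_JEN
theorem tra : T_TRA := Pool.Agent.H84.BD.pf_TRA
theorem akw : T_AKW := Pool.Agent.H91.BD.pf_AKW
theorem avg : T_AVG := Pool.Agent.H96.BD.pf_AVG
theorem one : T_ONE := Pool.Agent.H96.BD.pf_ONE
theorem chn : T_CHN := Pool.Agent.H96.BD.pf_CHN one avg
theorem ua : T_UA := Pool.Agent.H37.BD.pf_UA cva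
theorem kuu : T_KUU := Pool.Agent.H89.BD.pf_KUU chn ua akw wc wp cva wm
theorem bin : T_BIN := Pool.Agent.H51.BD.pf_BIN kuu jen tra cva wm
theorem rep : T_REP := Pool.Agent.H95.BD.pf_REP bmp bmr fct
theorem rpb : T_RPB := Pool.Agent.H1.BD.pf_RPB rep
theorem rpp : T_RPP := Pool.Agent.H65.BD.pf_RPP rep
theorem dic : T_DIC := Pool.Agent.H18.BD.pf_DIC
theorem res : T_RES := Pool.Agent.H18.BD.pf_RES
theorem gnb : T_GNB := Pool.Agent.H18.BD.pf_GNB eta etr
theorem ho1 : T_HO1 := Pool.Agent.H96.BD.pf_HO1 wm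
theorem trl : T_TRL := Pool.Agent.H96.BD.pf_TRL wm
theorem end' : T_END := Pool.Agent.H96.BD.pf_END ho1 trl
theorem ho2 : T_HO2 := Pool.Agent.H69.BD.pf_HO2 cva
theorem rrd : T_RRD := Pool.Agent.H96.BD.pf_RRD res
theorem spl : T_SPL := Pool.Agent.H96.BD.pf_SPL
theorem sta : T_STA := Pool.Agent.H96.BD.pf_STA
theorem trv : T_TRV := Pool.Agent.H96.BD.pf_TRV fct
theorem m0 : T_M0 := Pool.Agent.H84.BD.pf_M0 fct
theorem slc : T_SLC := Pool.Agent.H13.BD.pf_SLC
theorem slf : T_SLF := Pool.Agent.H13.BD.pf_SLF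
theorem pln : T_PLN := Pool.Agent.H13.BD.pf_PLN

theorem ort : T_ORT := Pool.Agent.H95.BD.pf_ORT eta pln
theorem orx : T_ORX := Pool.Agent.H37.BD.pf_ORX ort
theorem ora : T_ORA := Pool.Agent.H84.BD.pf_ORA orx grd cap sub'
theorem step : T_STEP := pf_STEP ho1 bin ho2 ora trl rpp sub' cap fct
theorem mult : T_MULT := pf_MULT step sta end' rrd
theorem nar : T_NAR := Pool.Agent.H93.BD.NARm.pf_NAR slc slf grd fct sub'
theorem bgl : T_BGL := Pool.Agent.H89.BD.pf_BGL dic nar rpb wt' wm fct sub' cva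
theorem bg : T_BG := Pool.Agent.H18.BD.pf_BG bgl cap wm cva fct sub'
theorem exp : T_EXP := pf_EXP bg spl mult res trv sub'
theorem fin : T_FIN := pf_FIN exp trv
theorem gna : T_GNA := Pool.Agent.H68.BD.pf_GNA

/-- l^2 decoupling for the paraboloid (Bourgain and Demeter), subcritical exponents -/
theorem main : T_MAIN := pf_MAIN fin gna gnb m0

theorem ifc : T_IFC := Pool.Agent.H60.BD.pf_IFC main fct

end Pool.Agent.H93.BD.All
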