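import Mathlib

/-!
l^2 decoupling for the paraboloid: definitions (board bdc_modules).
Physical space and frequency space are both `X m = E m × ℝ`, `E m = EuclideanSpace ℝ (Fin m)`.
-/

open MeasureTheory
open scoped ENNReal NNReal

namespace Pool.Agent.H93.BD

abbrev E (m : ℕ) := EuclideanSpace ℝ (Fin m)
abbrev X (m : ℕ) := E m × ℝ

/-- the phase `exp(i (ξ·y + b w))`, `z = (ξ, b)`, `x = (y, w)` -/
noncomputable def ph {m : ℕ} (z x : X m) : ℂ :=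
  Complex.exp (((inner ℝ z.1 x.1 + z.2 * x.2 : ℝ) : ℂ) * Complex.I)

/-- Fourier integral -/
noncomputable def FI {m : ℕ} (g : X m → ℂ) (x : X m) : ℂ := ∫ z, g z * ph z x

/-- `g` is integrable and vanishes off the cap of size `d` at `c` of the paraboloid `b = |ξ|^2` -/
structure InCap {m : ℕ} (C0 d : ℝ) (c : E m) (g : X m → ℂ) : Prop where
  int : Integrable g
  supp : ∀ z, g z ≠ 0 → ‖z.1 - c‖ ≤ C0 * d ∧ |z.2 - ‖z.1‖ ^ 2| ≤ C0 * d ^ 2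

/-- grid cells of scale `2^-a` of the unit cube -/
noncomputable def Bx (m a : ℕ) : Finset (Fin m → ℤ) := Fintype.piFinset (fun _ => Finset.Ico (0 : ℤ) (2 ^ a))

/-- corner of the cell `κ` at scale `2^-a` -/
noncomputable def pt {m : ℕ} (a : ℕ) (κ : Fin m → ℤ) : E m :=
  WithLp.toLp 2 (fun i => (κ i : ℝ) / 2 ^ a)

/-- families of pieces at scale `2^-a` -/
def Cls (m : ℕ) (C0 : ℝ) (a : ℕ) (g : (Fin m → ℤ) → X m → ℂ) : Prop :=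
  ∀ κ ∈ Bx m a, InCap C0 (1 / 2 ^ a) (pt a κ) (g κ)

/-- cells at scale `2^-a` inside the cell `α` of scale `2^-b`, `b ≤ a` -/
noncomputable def sub (m a b : ℕ) (α : Fin m → ℤ) : Finset (Fin m → ℤ) :=
  (Bx m a).filter (fun κ => ∀ i, κ i / 2 ^ (a - b) = α i)

/-- the function of the cell `α` of scale `2^-b` -/
noncomputable def fF {m : ℕ} (a b : ℕ) (g : (Fin m → ℤ) → X m → ℂ) (α : Fin m → ℤ) (x : X m) : ℂ :=
  ∑ κ ∈ sub m a b α, FI (g κ) x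

/-- the `L^p` norm, `p > 0` real -/
noncomputable def nrm {m : ℕ} (p : ℝ) (f : X m → ℂ) : ℝ≥0∞ := (∫⁻ x, ‖f x‖ₑ ^ p) ^ (1 / p)

/-- the `l^2` norm of a finite family -/
noncomputable def l2 {ι : Type} (s : Finset ι) (u : ι → ℝ≥0∞) : ℝ≥0∞ :=
  (∑ i ∈ s, u i ^ (2 : ℝ)) ^ (1 / 2 : ℝ)

/-- decoupling at scale `2^-a` with constant `D` -/
def Dec (m : ℕ) (p C0 : ℝ) (a : ℕ) (D : ℝ≥0∞) : Prop :=
  ∀ g : (Fin m → ℤ) → X m → ℂ, Cls m C0 a g →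
    nrm p (fun x => ∑ κ ∈ Bx m a, FI (g κ) x) ≤ D * l2 (Bx m a) (fun κ => nrm p (FI (g κ)))

def DecExp (m : ℕ) (p C0 η : ℝ) : Prop :=
  ∃ C : ℝ, 0 < C ∧ ∀ a : ℕ, Dec m p C0 a (ENNReal.ofReal (C * 2 ^ (η * a)))

/-- the weight with parameters `r1` (transversal), `r2` (in `w`) and shear `c` -/
noncomputable def gw (m N : ℕ) (r1 r2 : ℝ) (c : E m) (x : X m) : ℝ≥0∞ :=
  ENNReal.ofReal ((r1 ^ m * r2)⁻¹ * ((1 + ‖x.1 + (2 * x.2) • c‖ / r1) ^ N)⁻¹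
    * ((1 + |x.2| / r2) ^ N)⁻¹)

/-- ball weight of radius `R` -/
noncomputable def kw (m : ℕ) (R : ℝ) : X m → ℝ≥0∞ := gw m (m + 2) R R 0

/-- plank weight: width `S`, length `S^2`, direction `(-2c, 1)` -/
noncomputable def pk (m : ℕ) (S : ℝ) (c : E m) : X m → ℝ≥0∞ := gw m (3 * (m + 2)) S (S ^ 2) c

/-- convolution of non-negative functions -/
noncomputable def cv {m : ℕ} (u k : X m → ℝ≥0∞) (x : X m) : ℝ≥0∞ := ∫⁻ z, u z * k (x - z)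

/-- the multilinear quantity -/
noncomputable def AA (m : ℕ) (p q R : ℝ) (I : Fin (m + 1) → Finset (Fin m → ℤ))
    (f : (Fin m → ℤ) → X m → ℂ) : ℝ≥0∞ :=
  ∫⁻ x, ∏ i, (∑ α ∈ I i, (cv (fun z => ‖f α z‖ₑ ^ q) (kw m R) x) ^ (2 / q)) ^ (p / (2 * (m + 1)))

/-- the right-hand side attached to `AA` -/
noncomputable def RR (m : ℕ) (p : ℝ) (I : Fin (m + 1) → Finset (Fin m → ℤ))
    (f : (Fin m → ℤ) → X m → ℂ) : ℝ≥0∞ :=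
  ∏ i, (∑ α ∈ I i, (nrm p (f α)) ^ (2 : ℝ)) ^ (p / (2 * (m + 1)))

/-- direction of the planks of a cap at `c` -/
noncomputable def vv {m : ℕ} (c : E m) : X m := ((-2 : ℝ) • c, 1)

noncomputable def Am {m : ℕ} (b : Fin (m + 1) → E m) (s : Fin (m + 1) → ℝ) : X m :=
  ∑ i, s i • vv (b i)

/-- `Λ`-transversality -/
def Tr {m : ℕ} (Λ : ℝ) (b : Fin (m + 1) → E m) : Prop :=
  ∀ s : Fin (m + 1) → ℝ, ∀ i, |s i| ≤ Λ * ‖Am b s‖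

/-- robust transversality -/
def Rb {m : ℕ} (Λ r : ℝ) (b : Fin (m + 1) → E m) : Prop :=
  ∀ b' : Fin (m + 1) → E m, (∀ i, ‖b' i - b i‖ ≤ r) → Tr Λ b'

/-- the cube `[-ρ, ρ]^n` -/
def Qc (n : ℕ) (ρ : ℝ) : Set (Fin n → ℝ) := Set.Icc (fun _ => -ρ) (fun _ => ρ)

/-- average of `f` over `s0 + [-ρ, ρ]^n` -/
noncomputable def av (n : ℕ) (ρ : ℝ) (f : (Fin n → ℝ) → ℝ≥0∞) (s0 : Fin n → ℝ) : ℝ≥0∞ :=
  (ENNReal.ofReal ((2 * ρ) ^ n))⁻¹ * ∫⁻ s in Qc n ρ, f (s0 + s)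

/-- unnormalised product weight -/
noncomputable def wt {m : ℕ} (N : ℕ) (R : ℝ) (x : X m) : ℝ≥0∞ :=
  ENNReal.ofReal (((1 + ‖x.1‖ / R) ^ N)⁻¹ * ((1 + |x.2| / R) ^ N)⁻¹)

/-- local weighted decoupling, general centres: the form of the theorem used for the induction -/
def LocDec (m : ℕ) (p : ℝ) : Prop :=
  ∀ ε : ℝ, 0 < ε → ∀ (C0 R1 : ℝ) (N M : ℕ), ∃ C : ℝ, 0 < C ∧ ∀ a : ℕ, ∀ (ι : Type) (T : Finset ι)
    (c : ι → E m) (g : ι → X m → ℂ),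
    (∀ t ∈ T, ‖c t‖ ≤ R1) →
    (∀ t ∈ T, InCap C0 (1 / 2 ^ a) (c t) (g t)) →
    (∀ ξ : E m, ∀ T' ⊆ T, (∀ t ∈ T', ‖ξ - c t‖ ≤ 1 / 2 ^ a) → T'.card ≤ M) →
    ∀ x0 : X m,
      ∫⁻ x in {x : X m | ‖x.1 - x0.1‖ ≤ 4 ^ a ∧ |x.2 - x0.2| ≤ 4 ^ a},
          ‖∑ t ∈ T, FI (g t) x‖ₑ ^ p
        ≤ (ENNReal.ofReal (C * 2 ^ (ε * a))) ^ p *
          (∑ t ∈ T, (∫⁻ x, ‖FI (g t) x‖ₑ ^ p * wt N (4 ^ a) (x - x0)) ^ (2 / p)) ^ (p / 2)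

end Pool.Agent.H93.BD
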