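import Pool.Agent.H93.BD.Defs

/-!
Targets of the board bdc_modules, part 1: Fourier facts, weights, Kakeya.
-/

open MeasureTheory
open scoped ENNReal NNReal

namespace Pool.Agent.H93.BD

/-! ### Fourier basics -/

/-- a kernel whose Fourier transform is `1` on the unit ball -/
def T_BMP : Prop := ∀ m : ℕ, ∃ ψ : E m → ℂ, Continuous ψ ∧ Integrable ψ ∧
  (∀ N : ℕ, ∃ C : ℝ, ∀ u, ‖ψ u‖ ≤ C * ((1 + ‖u‖) ^ N)⁻¹) ∧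
  ∀ ξ : E m, ‖ξ‖ ≤ 1 → ∫ u, ψ u * Complex.exp (-((inner ℝ ξ u : ℝ) : ℂ) * Complex.I) = 1

/-- the same on the line (for the `w` variable) -/
def T_BMR : Prop := ∃ ψ : ℝ → ℂ, Continuous ψ ∧ Integrable ψ ∧
  (∀ N : ℕ, ∃ C : ℝ, ∀ u, ‖ψ u‖ ≤ C * ((1 + |u|) ^ N)⁻¹) ∧
  ∀ b : ℝ, |b| ≤ 1 → ∫ u, ψ u * Complex.exp (-((b * u : ℝ) : ℂ) * Complex.I) = 1

/-- a function `>= 1` on the unit ball, with rapid decay and compact Fourier support;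
`h` is smooth -/
def T_ETA : Prop := ∀ m : ℕ, ∃ h : E m → ℂ, ContDiff ℝ (⊤ : ℕ∞) h ∧ (∀ ξ, 1 < ‖ξ‖ → h ξ = 0) ∧
  (∀ y : E m, ‖y‖ ≤ 1 → 1 ≤ ‖∫ ξ, h ξ * Complex.exp (((inner ℝ ξ y : ℝ) : ℂ) * Complex.I)‖) ∧
  ∀ N : ℕ, ∃ C : ℝ, ∀ y : E m,
    ‖∫ ξ, h ξ * Complex.exp (((inner ℝ ξ y : ℝ) : ℂ) * Complex.I)‖ ≤ C * ((1 + ‖y‖) ^ N)⁻¹

/-- the same on the line -/
def T_ETR : Prop := ∃ h : ℝ → ℂ, ContDiff ℝ (⊤ : ℕ∞) h ∧ (∀ ξ, 1 < |ξ| → h ξ = 0) ∧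
  (∀ y : ℝ, |y| ≤ 1 → 1 ≤ ‖∫ ξ, h ξ * Complex.exp (((ξ * y : ℝ) : ℂ) * Complex.I)‖) ∧
  ∀ N : ℕ, ∃ C : ℝ, ∀ y : ℝ,
    ‖∫ ξ, h ξ * Complex.exp (((ξ * y : ℝ) : ℂ) * Complex.I)‖ ≤ C * ((1 + |y|) ^ N)⁻¹

/-- Plancherel for smooth compactly supported functions -/
def T_PLN : Prop := ∀ m : ℕ, ∀ H : E m → ℂ, ContDiff ℝ (⊤ : ℕ∞) H → HasCompactSupport H →
  ∫⁻ y : E m, ‖∫ ξ, H ξ * Complex.exp (((inner ℝ ξ y : ℝ) : ℂ) * Complex.I)‖ₑ ^ (2 : ℝ)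
    = ENNReal.ofReal ((2 * Real.pi) ^ m) * ∫⁻ ξ, ‖H ξ‖ₑ ^ (2 : ℝ)

/-- `FI g` is continuous and bounded -/
def T_FCT : Prop := ∀ (m : ℕ) (g : X m → ℂ), Integrable g →
  Continuous (FI g) ∧ ∀ x, ‖FI g x‖ ≤ ∫ z, ‖g z‖

/-- local constancy, general form -/
def T_REP : Prop := ∀ (m N : ℕ) (q : ℝ), 1 ≤ q → ∃ C : ℝ, ∀ (r1 r2 : ℝ), 0 < r1 → 0 < r2 →
  ∀ (c c' : E m) (b0 : ℝ) (g : X m → ℂ), Integrable g →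
    (∀ z, g z ≠ 0 → ‖z.1 - c‖ ≤ 1 / r1 ∧ |z.2 - 2 * inner ℝ c' z.1 - b0| ≤ 1 / r2) →
    ∀ x, ‖FI g x‖ₑ ^ q ≤ ENNReal.ofReal C * cv (fun z => ‖FI g z‖ₑ ^ q) (gw m N r1 r2 c') x

/-- local constancy on planks -/
def T_RPP : Prop := ∀ (m : ℕ) (q : ℝ), 1 ≤ q → ∀ C0 : ℝ, ∃ C : ℝ, ∀ S : ℝ, 1 ≤ S →
  ∀ (c : E m) (g : X m → ℂ), InCap C0 (1 / S) c g →
    ∀ x, ‖FI g x‖ₑ ^ q ≤ ENNReal.ofReal C * cv (fun z => ‖FI g z‖ₑ ^ q) (pk m S c) x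

/-- local constancy on balls -/
def T_RPB : Prop := ∀ (m : ℕ) (q : ℝ), 1 ≤ q → ∀ C0 R1 : ℝ, ∃ C : ℝ, ∀ S : ℝ, 1 ≤ S →
  ∀ (c : E m), ‖c‖ ≤ R1 → ∀ (g : X m → ℂ), InCap C0 (1 / S) c g →
    ∀ x, ‖FI g x‖ₑ ^ q ≤ ENNReal.ofReal C * cv (fun z => ‖FI g z‖ₑ ^ q) (kw m S) x

/-- weighted orthogonality in `E m` -/
def T_ORT : Prop := ∀ (m : ℕ) (C0 : ℝ) (N M : ℕ), m + 1 ≤ N → ∃ C : ℝ, ∀ R : ℝ, 0 < R →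
  ∀ (ι : Type) (B : Finset ι) (c : ι → E m) (G : ι → E m → ℂ),
    (∀ β ∈ B, Integrable (G β) ∧ ∀ ξ, G β ξ ≠ 0 → ‖ξ - c β‖ ≤ C0 / R) →
    (∀ ξ : E m, ∀ B' ⊆ B, (∀ β ∈ B', ‖ξ - c β‖ ≤ (C0 + 1) / R) → B'.card ≤ M) →
    ∀ y0 : E m,
      ∫⁻ y, ‖∑ β ∈ B, ∫ ξ, G β ξ * Complex.exp (((inner ℝ ξ y : ℝ) : ℂ) * Complex.I)‖ₑ ^ (2 : ℝ)
          * ENNReal.ofReal (((1 + ‖y0 - y‖ / R) ^ N)⁻¹)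
        ≤ ENNReal.ofReal C * ∑ β ∈ B,
          ∫⁻ y, ‖∫ ξ, G β ξ * Complex.exp (((inner ℝ ξ y : ℝ) : ℂ) * Complex.I)‖ₑ ^ (2 : ℝ)
            * ENNReal.ofReal (((1 + ‖y0 - y‖ / R) ^ N)⁻¹)

/-- weighted orthogonality in `X m` -/
def T_ORX : Prop := ∀ (m : ℕ) (C0 : ℝ) (M : ℕ), ∃ C : ℝ, ∀ R : ℝ, 0 < R →
  ∀ (ι : Type) (B : Finset ι) (c : ι → E m) (g : ι → X m → ℂ),
    (∀ β ∈ B, Integrable (g β) ∧ ∀ z, g β z ≠ 0 → ‖z.1 - c β‖ ≤ C0 / R) →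
    (∀ ξ : E m, ∀ B' ⊆ B, (∀ β ∈ B', ‖ξ - c β‖ ≤ (C0 + 1) / R) → B'.card ≤ M) →
    ∀ x : X m, cv (fun z => ‖∑ β ∈ B, FI (g β) z‖ₑ ^ (2 : ℝ)) (kw m R) x
      ≤ ENNReal.ofReal C * ∑ β ∈ B, cv (fun z => ‖FI (g β) z‖ₑ ^ (2 : ℝ)) (kw m R) x

/-! ### Weights -/

/-- total mass -/
def T_WM : Prop := ∀ m N : ℕ, m + 2 ≤ N → ∃ C : ℝ, ∀ (r1 r2 : ℝ), 0 < r1 → 0 < r2 → ∀ c : E m,
  ∫⁻ x, gw m N r1 r2 c x ≤ ENNReal.ofReal C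

/-- slow variation of the ball weight -/
def T_WT : Prop := ∀ (m : ℕ) (R : ℝ), 0 < R → ∀ x z : X m,
  kw m R (x + z) ≤ ENNReal.ofReal ((1 + ‖z.1‖ / R) ^ (m + 2) * (1 + |z.2| / R) ^ (m + 2)) * kw m R x

/-- convolution of two ball weights -/
def T_WC : Prop := ∀ m : ℕ, ∃ C : ℝ, ∀ R R' : ℝ, 0 < R' → R' ≤ R → ∀ x : X m,
  cv (kw m R') (kw m R) x ≤ ENNReal.ofReal C * kw m R x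

/-- plank against ball -/
def T_WP : Prop := ∀ (m : ℕ) (R1 : ℝ), ∃ C : ℝ, ∀ (S R : ℝ), 1 ≤ S → S ^ 2 ≤ R →
  ∀ c : E m, ‖c‖ ≤ R1 → ∀ x : X m, cv (pk m S c) (kw m R) x ≤ ENNReal.ofReal C * kw m R x

/-- `cv` is commutative and associative (measurable functions) and monotone -/
def T_CVA : Prop := ∀ (m : ℕ) (u k l : X m → ℝ≥0∞), Measurable u → Measurable k → Measurable l →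
  (∀ x, cv u k x = cv k u x) ∧ (∀ x, cv (cv u k) l x = cv u (cv k l) x) ∧
  Measurable (cv u k) ∧ ∫⁻ x, cv u k x = (∫⁻ x, u x) * ∫⁻ x, k x

/-! ### The functions `U_R = u * pk * kw_R` -/

/-- constancy along directions `1/L`-close to `c` -/
def T_UA : Prop := ∀ (m : ℕ) (R1 : ℝ), ∃ C : ℝ, 1 ≤ C ∧ ∀ (S R R' L : ℝ), 1 ≤ S → 0 < R → 1 ≤ L →
  R' ≤ L * R → R' ≤ S ^ 2 → ∀ c b : E m, ‖c‖ ≤ R1 → ‖b‖ ≤ R1 → ‖c - b‖ ≤ 1 / L →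
  ∀ u : X m → ℝ≥0∞, Measurable u → ∀ (x : X m) (t : ℝ), |t| ≤ 4 * R' →
    cv (cv u (pk m S c)) (kw m R) (x + t • vv b)
      ≤ ENNReal.ofReal C * cv (cv u (pk m S c)) (kw m R) x

/-- averages over parallelepipeds of transversal directions -/
def T_AKW : Prop := ∀ (m : ℕ) (R1 Λ : ℝ), ∃ C : ℝ, ∀ b : Fin (m + 1) → E m, (∀ i, ‖b i‖ ≤ R1) →
  Tr Λ b → ∀ ρ : ℝ, 0 < ρ → ∀ f : X m → ℝ≥0∞, Measurable f → ∀ x : X m,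
    ∫⁻ s in Qc (m + 1) ρ, f (x + Am b s) ≤ ENNReal.ofReal (C * ρ ^ (m + 1)) * cv f (kw m ρ) x

/-- integration in the centre of the parallelepiped -/
def T_TRA : Prop := ∀ (m : ℕ) (b : Fin (m + 1) → E m) (ρ : ℝ), 0 < ρ → ∀ h : X m → ℝ≥0∞,
  Measurable h → ∫⁻ x, av (m + 1) ρ (fun s => h (x + Am b s)) 0 = ∫⁻ x, h x

/-! ### Multilinear Kakeya on `Fin n → ℝ` -/

/-- Loomis-Whitney with averages -/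
def T_LW : Prop := ∀ (n : ℕ), 2 ≤ n → ∀ γ : ℝ, 0 < γ → γ * (n - 1) ≤ 1 → ∀ ρ : ℝ, 0 < ρ →
  ∀ G : Fin n → (Fin n → ℝ) → ℝ≥0∞, (∀ i, Measurable (G i)) →
    (∀ i s t, G i (Function.update s i t) = G i s) →
    av n ρ (fun s => ∏ i, G i s ^ γ) 0 ≤ ∏ i, (av n ρ (G i) 0) ^ γ

/-- one scale -/
def T_ONE : Prop := ∀ (n : ℕ), 2 ≤ n → ∀ γ : ℝ, 0 < γ → γ * (n - 1) ≤ 1 → ∀ C : ℝ, 1 ≤ C →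
  ∀ ρ : ℝ, 0 < ρ → ∀ V : Fin n → (Fin n → ℝ) → ℝ≥0∞, (∀ i, Measurable (V i)) →
    (∀ i s t, |t| ≤ 2 * ρ → V i (s + Pi.single i t) ≤ ENNReal.ofReal C * V i s) →
    ∀ s0, av n ρ (fun s => ∏ i, V i s ^ γ) s0
      ≤ ENNReal.ofReal (C ^ (n * γ)) * ∏ i, (av n ρ (V i) s0) ^ γ

/-- averages of averages -/
def T_AVG : Prop := ∀ (n : ℕ) (ρ ρ' : ℝ), 0 < ρ → ρ ≤ ρ' → ∀ f : (Fin n → ℝ) → ℝ≥0∞,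
  Measurable f → ∀ s0, av n ρ' f s0 ≤ 2 ^ n * av n (2 * ρ') (fun s => av n ρ f s) s0

/-- many scales -/
def T_CHN : Prop := ∀ (n : ℕ), 2 ≤ n → ∀ γ : ℝ, 0 < γ → γ * (n - 1) ≤ 1 → ∀ C : ℝ, 1 ≤ C →
  ∃ C' : ℝ, 1 ≤ C' ∧ ∀ (J : ℕ) (R : ℕ → ℝ), 1 ≤ J → 0 < R 0 → (∀ j, R j ≤ R (j + 1)) →
    ∀ V : ℕ → Fin n → (Fin n → ℝ) → ℝ≥0∞, (∀ j i, Measurable (V j i)) →
    (∀ j < J, ∀ i s t, |t| ≤ 4 * R (j + 1) → V j i (s + Pi.single i t) ≤ ENNReal.ofReal C * V j i s) →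
    (∀ j < J, ∀ i s0, av n (2 * R (j + 1)) (V j i) s0 ≤ ENNReal.ofReal C * V (j + 1) i s0) →
    ∀ s0, av n (R J) (fun s => ∏ i, V 0 i s ^ γ) s0 ≤ ENNReal.ofReal (C' ^ J) * ∏ i, V J i s0 ^ γ

/-- Kakeya for the functions `U`: exponents `γ ≤ 1/m`, weights `μ` -/
def T_KUU : Prop := ∀ m : ℕ, 1 ≤ m → ∀ γ : ℝ, 0 < γ → γ * m ≤ 1 → ∀ R1 Λ : ℝ,
  ∃ C : ℝ, 1 ≤ C ∧ ∀ (S L : ℝ), 1 ≤ S → 2 ≤ L → ∀ b : Fin (m + 1) → E m, (∀ i, ‖b i‖ ≤ R1) →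
    Tr Λ b → ∀ (I : Fin (m + 1) → Finset (Fin m → ℤ)) (c : (Fin m → ℤ) → E m),
    (∀ i, ∀ α ∈ I i, ‖c α‖ ≤ R1 ∧ ‖c α - b i‖ ≤ 1 / L) →
    ∀ u : Fin (m + 1) → (Fin m → ℤ) → X m → ℝ≥0∞, (∀ i α, Measurable (u i α)) →
    ∀ x : X m,
      av (m + 1) (S ^ 2) (fun s => ∏ i, (∑ α ∈ I i,
          cv (cv (u i α) (pk m S (c α))) (kw m S) (x + Am b s)) ^ γ) 0
        ≤ ENNReal.ofReal (C ^ (Real.log S / Real.log L + 2)) *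
          ∏ i, (∑ α ∈ I i, cv (u i α) (kw m (S ^ 2)) x) ^ γ

/-- the normalisation which replaces dyadic pigeonholing -/
def T_JEN : Prop := ∀ (ι : Type) (s : Finset ι) (q : ℝ), 2 ≤ q → ∀ (a A : ι → ℝ≥0∞),
  (∀ i ∈ s, A i ≠ 0 ∧ A i ≠ ∞) →
    ∑ i ∈ s, a i ^ (2 / q) ≤ (∑ i ∈ s, A i ^ (2 / q)) *
      (∑ i ∈ s, (A i ^ (2 / q) / ∑ j ∈ s, A j ^ (2 / q)) * (a i / A i)) ^ (2 / q)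

/-- ball inflation -/
def T_BIN : Prop := ∀ m : ℕ, 1 ≤ m → ∀ p q : ℝ, 0 < p → 2 ≤ q → p * m ≤ q * (m + 1) →
  ∀ R1 Λ C1 : ℝ, ∃ C : ℝ, 1 ≤ C ∧ ∀ (S L : ℝ), 1 ≤ S → 2 ≤ L → ∀ b : Fin (m + 1) → E m,
    (∀ i, ‖b i‖ ≤ R1) → Tr Λ b → ∀ (I : Fin (m + 1) → Finset (Fin m → ℤ)) (c : (Fin m → ℤ) → E m),
    (∀ i, ∀ α ∈ I i, ‖c α‖ ≤ R1 ∧ ‖c α - b i‖ ≤ 1 / L) →
    ∀ f : (Fin m → ℤ) → X m → ℂ, (∀ α, Continuous (f α)) → (∀ α, ∃ B : ℝ, ∀ x, ‖f α x‖ ≤ B) →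
    (∀ i, ∀ α ∈ I i, ∀ x,
      ‖f α x‖ₑ ^ q ≤ ENNReal.ofReal C1 * cv (fun z => ‖f α z‖ₑ ^ q) (pk m S (c α)) x) →
    AA m p q S I f ≤ ENNReal.ofReal (C ^ (Real.log S / Real.log L + 2)) * AA m p q (S ^ 2) I f

end Pool.Agent.H93.BD
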